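import Pool.Agent.Lib.MP_0c183c_co_P9A.RankMat

set_option autoImplicit false
set_option linter.unusedSectionVars false

/-!
# Left kernels of finite submatrices (row relations), pure linear algebra
-/

namespace Pool.Agent.Lib.MP_0c183c_co_P9S7

open Module Pool.Agent.Lib.P9RankMat

variable {V F : Type*} [DecidableEq V] [Field F]

/-- Row relations: vectors supported on `A` which kill the columns `B`. -/
def KerS (M : V → V → F) (A B : Finset V) : Submodule F (V → F) where
  carrier := {l | (∀ x, x ∉ A → l x = 0) ∧ ∀ y ∈ B, ∑ x ∈ A, l x * M x y = 0}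
  zero_mem' := ⟨fun _ _ => rfl, fun y _ => by simp⟩
  add_mem' := by
    rintro l m ⟨h1, h2⟩ ⟨h3, h4⟩
    refine ⟨fun x hx => by simp [h1 x hx, h3 x hx], fun y hy => ?_⟩
    have := h2 y hy
    have := h4 y hy
    simp only [Pi.add_apply, add_mul, Finset.sum_add_distrib]
    rw [h2 y hy, h4 y hy, add_zero]
  smul_mem' := by
    rintro c l ⟨h1, h2⟩
    refine ⟨fun x hx => by simp [h1 x hx], fun y hy => ?_⟩
    simp only [Pi.smul_apply, smul_eq_mul, mul_assoc]
    rw [← Finset.mul_sum, h2 y hy, mul_zero]

theorem mem_KerS {M : V → V → F} {A B : Finset V} {l : V → F} :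
    l ∈ KerS M A B ↔ (∀ x, x ∉ A → l x = 0) ∧ ∀ y ∈ B, ∑ x ∈ A, l x * M x y = 0 := Iff.rfl

/-- Restriction of a relation to the coordinates in `A`. -/
def resK (M : V → V → F) (A B : Finset V) : KerS M A B →ₗ[F] (A → F) :=
  (LinearMap.funLeft F F (fun a : A => (a : V))).comp (KerS M A B).subtype

theorem resK_inj (M : V → V → F) (A B : Finset V) : Function.Injective (resK M A B) := by
  intro l m h
  apply Subtype.ext
  funext x
  by_cases hx : x ∈ A
  · exact congrFun h ⟨x, hx⟩
  · rw [l.2.1 x hx, m.2.1 x hx]

instance finKerS (M : V → V → F) (A B : Finset V) : FiniteDimensional F (KerS M A B) :=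
  FiniteDimensional.of_injective (resK M A B) (resK_inj M A B)

theorem finrank_KerS (M : V → V → F) (A B : Finset V) :
    finrank F (KerS M A B) + rk M A B = A.card := by
  let f : (A → F) →ₗ[F] (B → F) := Fintype.linearCombination F (fun a : A => rowOn M B a)
  have hr : LinearMap.range f = rowSpan M A B := by
    rw [Fintype.range_linearCombination]
    unfold rowSpan
    congr 1
    apply Set.ext
    intro x
    constructor
    · rintro ⟨a, rfl⟩
      exact ⟨a.1, a.2, rfl⟩
    · rintro ⟨a, ha, rfl⟩
      exact ⟨⟨a, ha⟩, rfl⟩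
  have hf : ∀ (c : A → F) (y : B), f c y = ∑ a : A, c a * M a.1 y.1 := by
    intro c y
    simp [f, Fintype.linearCombination_apply, rowOn, Finset.sum_apply]
  have hk : LinearMap.range (resK M A B) = LinearMap.ker f := by
    apply Submodule.ext
    intro c
    constructor
    · rintro ⟨l, rfl⟩
      rw [LinearMap.mem_ker]
      funext y
      rw [hf]
      have := l.2.2 y.1 y.2
      rw [← Finset.sum_coe_sort] at this
      simpa [resK] using this
    · intro hc
      rw [LinearMap.mem_ker] at hc
      refine ⟨⟨fun x => if h : x ∈ A then c ⟨x, h⟩ else 0, fun x hx => by simp [hx], ?_⟩, ?_⟩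
      · intro y hy
        rw [← Finset.sum_coe_sort]
        have := congrFun hc ⟨y, hy⟩
        rw [hf] at this
        simpa using this
      · funext a
        simp [resK]
  have h1 := LinearMap.finrank_range_add_finrank_ker f
  rw [Module.finrank_fintype_fun_eq_card, Fintype.card_coe, hr, ← hk,
    LinearMap.finrank_range_of_inj (resK_inj M A B)] at h1
  unfold rk
  omega

theorem KerS_mono_left {M : V → V → F} {A A' : Finset V} (B : Finset V) (h : A ⊆ A') :
    KerS M A B ≤ KerS M A' B := by
  rintro l ⟨h1, h2⟩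
  refine ⟨fun x hx => h1 x fun hx' => hx (h hx'), fun y hy => ?_⟩
  rw [← h2 y hy]
  refine (Finset.sum_subset h fun x _ hx => ?_).symm
  rw [h1 x hx, zero_mul]

theorem KerS_anti_right {M : V → V → F} (A : Finset V) {B B' : Finset V} (h : B ⊆ B') :
    KerS M A B' ≤ KerS M A B := fun _ hl => ⟨hl.1, fun y hy => hl.2 y (h hy)⟩

/-- A relation whose support is in the smaller set. -/
theorem mem_KerS_of_support {M : V → V → F} {A A' B : Finset V} (h : A ⊆ A') {l : V → F}
    (hl : l ∈ KerS M A' B) (h0 : ∀ x ∈ A', x ∉ A → l x = 0) : l ∈ KerS M A B := by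
  refine ⟨fun x hx => ?_, fun y hy => ?_⟩
  · by_cases hx' : x ∈ A'
    · exact h0 x hx' hx
    · exact hl.1 x hx'
  · rw [← hl.2 y hy]
    refine Finset.sum_subset h fun x hx' hx => ?_
    rw [h0 x hx' hx, zero_mul]

/-- If the rank does not grow when the columns are enlarged, relations extend. -/
theorem KerS_extend {M : V → V → F} {A B B' : Finset V} (h : B ⊆ B')
    (hr : rk M A B' ≤ rk M A B) {l : V → F} (hl : l ∈ KerS M A B) : l ∈ KerS M A B' :=
  ⟨hl.1, relation_extends M h hr l hl.2⟩

/-- Two relations have proportional components at two vertices `s u` if removing these vertices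
costs only one dimension. -/
theorem cross_eq_zero {M : V → V → F} {A A' B : Finset V} {s u : V} (h : A ⊆ A')
    (hs : s ∉ A) (hu : u ∉ A)
    (hd : finrank F (KerS M A' B) ≤ finrank F (KerS M A B) + 1) {l m : V → F}
    (hl : l ∈ KerS M A' B) (hm : m ∈ KerS M A' B) : l s * m u = l u * m s := by
  by_contra hne
  let g : KerS M A' B →ₗ[F] F × F :=
    ((LinearMap.proj s : (V → F) →ₗ[F] F).comp (KerS M A' B).subtype).prod
      ((LinearMap.proj u : (V → F) →ₗ[F] F).comp (KerS M A' B).subtype)
  have hg : ∀ n : KerS M A' B, g n = (n.1 s, n.1 u) := fun n => rfl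
  have hsurj : LinearMap.range g = ⊤ := by
    rw [LinearMap.range_eq_top]
    rintro ⟨p, q⟩
    have hD : l s * m u - l u * m s ≠ 0 := sub_ne_zero.2 hne
    refine ⟨((p * m u - q * m s) / (l s * m u - l u * m s)) • ⟨l, hl⟩ +
      ((l s * q - l u * p) / (l s * m u - l u * m s)) • ⟨m, hm⟩, ?_⟩
    rw [hg]
    simp only [Submodule.coe_add, Submodule.coe_smul, Pi.add_apply, Pi.smul_apply, smul_eq_mul,
      Prod.mk.injEq]
    constructor
    · rw [div_mul_eq_mul_div, div_mul_eq_mul_div, ← add_div, div_eq_iff hD]
      ring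
    · rw [div_mul_eq_mul_div, div_mul_eq_mul_div, ← add_div, div_eq_iff hD]
      ring
  have h1 := LinearMap.finrank_range_add_finrank_ker g
  rw [hsurj, finrank_top, Module.finrank_prod, Module.finrank_self] at h1
  have h2 : finrank F (KerS M A B) ≤ finrank F (LinearMap.ker g) := by
    let e : KerS M A B →ₗ[F] LinearMap.ker g :=
      (Submodule.inclusion (KerS_mono_left B h)).codRestrict _ (fun n => by
        rw [LinearMap.mem_ker, hg]
        have h1 : (n : V → F) s = 0 := n.2.1 s hs
        have h2 : (n : V → F) u = 0 := n.2.1 u hu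
        exact Prod.ext h1 h2)
    refine LinearMap.finrank_le_finrank_of_injective (f := e) ?_
    intro a b hab
    have h3 : (e a).1 = (e b).1 := by rw [hab]
    exact Submodule.inclusion_injective _ h3
  omega

end Pool.Agent.Lib.MP_0c183c_co_P9S7
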