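import Pool.Agent.Lib.MP_0c183c_co_P9W.World
import Pool.Agent.Lib.MP_0c183c_co_P9S7.Ker

set_option autoImplicit false
set_option linter.unusedSectionVars false

/-!
# Two-sided relation spaces in a `World` under the rank hypothesis `TwoRank`
-/

namespace Pool.Agent.Lib.MP_0c183c_co_P9S7

open Module Pool.Agent.Lib.P9RankMat Pool.Agent.Lib.MP_0c183c_co_P9W

/-- The vertices over `X`. -/
def VV (X : Finset ℚ) : Finset Vx := X ×ˢ (Finset.univ : Finset Bool)

theorem mem_VV {X : Finset ℚ} {x : Vx} : x ∈ VV X ↔ x.1 ∈ X := by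
  simp [VV]

theorem card_VV (X : Finset ℚ) : (VV X).card = 2 * X.card := by
  rw [VV, Finset.card_product, Finset.card_univ, Fintype.card_bool, mul_comm]

theorem VV_mono {X Y : Finset ℚ} (h : X ⊆ Y) : VV X ⊆ VV Y :=
  Finset.product_subset_product_left h

/-- `j` lies outside the hull of `X`. -/
def Out (X : Finset ℚ) (j : ℚ) : Prop := (∀ x ∈ X, j < x) ∨ (∀ x ∈ X, x < j)

instance (X : Finset ℚ) (j : ℚ) : Decidable (Out X j) := by
  unfold Out
  infer_instance

/-- `J` lies outside the hull of `X`, with at least `N` elements on each side. -/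
def Around (N : ℕ) (X J : Finset ℚ) : Prop :=
  (∀ j ∈ J, Out X j) ∧ N ≤ (J.filter (fun j => ∀ x ∈ X, j < x)).card ∧
    N ≤ (J.filter (fun j => ∀ x ∈ X, x < j)).card

theorem Out.anti {X X' : Finset ℚ} {j : ℚ} (h : X' ⊆ X) (hj : Out X j) : Out X' j :=
  hj.imp (fun hj x hx => hj x (h hx)) (fun hj x hx => hj x (h hx))

theorem Around.anti {N : ℕ} {X X' J : Finset ℚ} (h : X' ⊆ X) (hJ : Around N X J) :
    Around N X' J := by
  refine ⟨fun j hj => (hJ.1 j hj).anti h, hJ.2.1.trans (Finset.card_le_card ?_),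
    hJ.2.2.trans (Finset.card_le_card ?_)⟩
  · exact Finset.monotone_filter_right _ fun j _ hj x hx => hj x (h hx)
  · exact Finset.monotone_filter_right _ fun j _ hj x hx => hj x (h hx)

theorem Around.mono {N N' : ℕ} (hN : N' ≤ N) {X J : Finset ℚ} (h : Around N X J) :
    Around N' X J := ⟨h.1, hN.trans h.2.1, hN.trans h.2.2⟩

theorem Around.union {N : ℕ} {X J J' : Finset ℚ} (h : Around N X J)
    (h' : ∀ j ∈ J', Out X j) : Around N X (J ∪ J') := by
  refine ⟨fun j hj => ?_, h.2.1.trans (Finset.card_le_card ?_),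
    h.2.2.trans (Finset.card_le_card ?_)⟩
  · rcases Finset.mem_union.1 hj with hj | hj
    · exact h.1 j hj
    · exact h' j hj
  · exact Finset.filter_subset_filter _ Finset.subset_union_left
  · exact Finset.filter_subset_filter _ Finset.subset_union_left

/-- A common frame for two sets. -/
theorem Around.common {N : ℕ} {X X' J J' : Finset ℚ} (h : Around N X J) (h' : Around N X' J') :
    Around N (X ∪ X') ((J ∪ J').filter (fun j => Out (X ∪ X') j)) := by
  refine ⟨fun j hj => (Finset.mem_filter.1 hj).2, ?_, ?_⟩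
  · rcases (X ∪ X').eq_empty_or_nonempty with he | hne
    · refine h.2.1.trans (Finset.card_le_card fun j hj => ?_)
      rw [Finset.mem_filter] at hj ⊢
      rw [Finset.mem_filter, he]
      exact ⟨⟨Finset.mem_union_left _ hj.1, Or.inl (by simp)⟩, by simp⟩
    · have hmin := Finset.min'_mem (X ∪ X') hne
      rcases Finset.mem_union.1 hmin with hm | hm
      · refine h.2.1.trans (Finset.card_le_card fun j hj => ?_)
        rw [Finset.mem_filter] at hj
        have hlt : ∀ x ∈ X ∪ X', j < x := fun x hx =>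
          lt_of_lt_of_le (hj.2 _ hm) (Finset.min'_le _ x hx)
        rw [Finset.mem_filter, Finset.mem_filter]
        exact ⟨⟨Finset.mem_union_left _ hj.1, Or.inl hlt⟩, hlt⟩
      · refine h'.2.1.trans (Finset.card_le_card fun j hj => ?_)
        rw [Finset.mem_filter] at hj
        have hlt : ∀ x ∈ X ∪ X', j < x := fun x hx =>
          lt_of_lt_of_le (hj.2 _ hm) (Finset.min'_le _ x hx)
        rw [Finset.mem_filter, Finset.mem_filter]
        exact ⟨⟨Finset.mem_union_right _ hj.1, Or.inl hlt⟩, hlt⟩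
  · rcases (X ∪ X').eq_empty_or_nonempty with he | hne
    · refine h.2.1.trans (Finset.card_le_card fun j hj => ?_)
      rw [Finset.mem_filter] at hj ⊢
      rw [Finset.mem_filter, he]
      exact ⟨⟨Finset.mem_union_left _ hj.1, Or.inl (by simp)⟩, by simp⟩
    · have hmax := Finset.max'_mem (X ∪ X') hne
      rcases Finset.mem_union.1 hmax with hm | hm
      · refine h.2.2.trans (Finset.card_le_card fun j hj => ?_)
        rw [Finset.mem_filter] at hj
        have hlt : ∀ x ∈ X ∪ X', x < j := fun x hx =>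
          lt_of_le_of_lt (Finset.le_max' _ x hx) (hj.2 _ hm)
        rw [Finset.mem_filter, Finset.mem_filter]
        exact ⟨⟨Finset.mem_union_left _ hj.1, Or.inr hlt⟩, hlt⟩
      · refine h'.2.2.trans (Finset.card_le_card fun j hj => ?_)
        rw [Finset.mem_filter] at hj
        have hlt : ∀ x ∈ X ∪ X', x < j := fun x hx =>
          lt_of_le_of_lt (Finset.le_max' _ x hx) (hj.2 _ hm)
        rw [Finset.mem_filter, Finset.mem_filter]
        exact ⟨⟨Finset.mem_union_right _ hj.1, Or.inr hlt⟩, hlt⟩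

/-- The two-sided rank hypothesis of case 7. -/
def TwoRank (W : World) (ρ N : ℕ) : Prop :=
  ∀ T X J : Finset ℚ, X ⊆ T → J ⊆ T → X.card ≤ 4 * ρ + 8 → Around N X J →
    rk (W.P T) (VV X) (VV J) = X.card + min X.card ρ

/-- Relations on `X` in the world `T` relative to the frame `J`. -/
abbrev Rel (W : World) (T X J : Finset ℚ) : Submodule W.Ω (Vx → W.Ω) :=
  KerS (W.P T) (VV X) (VV J)

variable {W : World} {ρ N : ℕ}

theorem finrank_Rel (h : TwoRank W ρ N) {T X J : Finset ℚ} (hX : X ⊆ T) (hJ : J ⊆ T)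
    (hc : X.card ≤ 4 * ρ + 8) (ha : Around N X J) :
    finrank W.Ω (Rel W T X J) = X.card - min X.card ρ := by
  have h1 := finrank_KerS (W.P T) (VV X) (VV J)
  rw [card_VV, h T X J hX hJ hc ha] at h1
  change finrank W.Ω (KerS (W.P T) (VV X) (VV J)) = _
  omega

theorem Rel_extend (h : TwoRank W ρ N) {T X J J' : Finset ℚ} (hX : X ⊆ T) (hJ : J ⊆ T)
    (hJ' : J' ⊆ T) (hc : X.card ≤ 4 * ρ + 8) (ha : Around N X J) (ho : ∀ j ∈ J', Out X j)
    {l : Vx → W.Ω} (hl : l ∈ Rel W T X J) : l ∈ Rel W T X J' := by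
  have h1 : l ∈ Rel W T X (J ∪ J') := by
    refine KerS_extend (VV_mono Finset.subset_union_left) ?_ hl
    rw [h T X J hX hJ hc ha, h T X (J ∪ J') hX (Finset.union_subset hJ hJ') hc (ha.union ho)]
  exact KerS_anti_right _ (VV_mono Finset.subset_union_right) h1

/-- A relation kills every element of the world outside the hull. -/
theorem Rel_kills (h : TwoRank W ρ N) {T X J : Finset ℚ} (hX : X ⊆ T) (hJ : J ⊆ T)
    (hc : X.card ≤ 4 * ρ + 8) (ha : Around N X J) {l : Vx → W.Ω} (hl : l ∈ Rel W T X J)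
    {y : Vx} (hy : y.1 ∈ T) (ho : Out X y.1) : ∑ x ∈ VV X, l x * W.P T x y = 0 := by
  have h1 := Rel_extend h hX hJ (J' := {y.1}) (by simpa using hy) hc ha
    (fun j hj => by rw [Finset.mem_singleton.1 hj]; exact ho) hl
  exact h1.2 y (by rw [mem_VV]; simp)

/-- Relations survive the absorption of an element outside the hull. -/
theorem Rel_erase (h : TwoRank W ρ N) {T X J : Finset ℚ} {c : ℚ} (hcT : c ∈ T)
    (hX : X ⊆ T.erase c) (hJ : J ⊆ T.erase c) (hc : X.card ≤ 4 * ρ + 8) (ha : Around N X J)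
    (ho : Out X c) {l : Vx → W.Ω} (hl : l ∈ Rel W T X J) : l ∈ Rel W (T.erase c) X J := by
  obtain ⟨t, -, ht⟩ := W.abs T c hcT
  have hXT : X ⊆ T := hX.trans (Finset.erase_subset _ _)
  have hJT : J ⊆ T := hJ.trans (Finset.erase_subset _ _)
  refine ⟨hl.1, fun y hy => ?_⟩
  have h1 : ∀ x ∈ VV X, l x * W.P (T.erase c) x y = l x * W.P T x y +
      t * ((l x * W.P T x (c, false)) * W.P T (c, true) y +
        (l x * W.P T x (c, true)) * W.P T (c, false) y) := by
    intro x hx
    rw [ht x y (hX (mem_VV.1 hx)) (hJ (mem_VV.1 hy)), absorb]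
    ring
  rw [Finset.sum_congr rfl h1, Finset.sum_add_distrib, ← Finset.mul_sum, Finset.sum_add_distrib,
    ← Finset.sum_mul, ← Finset.sum_mul, hl.2 y hy,
    Rel_kills h hXT hJT hc ha hl (y := (c, false)) hcT ho,
    Rel_kills h hXT hJT hc ha hl (y := (c, true)) hcT ho]
  ring

/-- The components of two relations at a common element are proportional (same world). -/
theorem Rel_cross (h : TwoRank W ρ N) {T X X' J J' : Finset ℚ} (hX : X ⊆ T) (hJ : J ⊆ T)
    (hX' : X' ⊆ T) (hJ' : J' ⊆ T) (hc : (X ∪ X').card ≤ 4 * ρ + 8) (ha : Around N X J)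
    (ha' : Around N X' J') {q : ℚ} (hq : q ∈ X) {l l' : Vx → W.Ω}
    (hl : l ∈ Rel W T X J) (hl' : l' ∈ Rel W T X' J') :
    l (q, false) * l' (q, true) = l (q, true) * l' (q, false) := by
  set Z := X ∪ X' with hZ
  set K := (J ∪ J').filter (fun j => Out Z j) with hK
  have hKT : K ⊆ T := (Finset.filter_subset _ _).trans (Finset.union_subset hJ hJ')
  have hZT : Z ⊆ T := Finset.union_subset hX hX'
  have haZ : Around N Z K := ha.common ha'
  have hcX : X.card ≤ 4 * ρ + 8 := (Finset.card_le_card Finset.subset_union_left).trans hc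
  have hcX' : X'.card ≤ 4 * ρ + 8 := (Finset.card_le_card Finset.subset_union_right).trans hc
  have h1 : l ∈ Rel W T Z K := by
    refine KerS_mono_left _ (VV_mono Finset.subset_union_left) ?_
    exact Rel_extend h hX hJ hKT hcX ha
      (fun j hj => (haZ.1 j hj).anti Finset.subset_union_left) hl
  have h2 : l' ∈ Rel W T Z K := by
    refine KerS_mono_left _ (VV_mono Finset.subset_union_right) ?_
    exact Rel_extend h hX' hJ' hKT hcX' ha'
      (fun j hj => (haZ.1 j hj).anti Finset.subset_union_right) hl'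
  have hqZ : q ∈ Z := Finset.mem_union_left _ hq
  refine cross_eq_zero (VV_mono (Finset.erase_subset q Z)) ?_ ?_ ?_ h1 h2
  · rw [mem_VV]; simp
  · rw [mem_VV]; simp
  · have h3 := finrank_Rel h hZT hKT hc haZ
    have h4 := finrank_Rel h ((Finset.erase_subset q Z).trans hZT) hKT
      ((Finset.card_le_card (Finset.erase_subset q Z)).trans hc)
      (haZ.anti (Finset.erase_subset q Z))
    rw [Finset.card_erase_of_mem hqZ] at h4
    change finrank W.Ω (Rel W T Z K) ≤ finrank W.Ω (Rel W T (Z.erase q) K) + 1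
    rw [h3, h4]
    omega

/-- Minimal relations exist. -/
theorem exists_Rel (h : TwoRank W ρ N) {T X J : Finset ℚ} (hX : X ⊆ T) (hJ : J ⊆ T)
    (hc : X.card = ρ + 1) (ha : Around N X J) : ∃ l ∈ Rel W T X J, l ≠ 0 := by
  have h1 := finrank_Rel h hX hJ (by omega) ha
  have h2 : 0 < finrank W.Ω (Rel W T X J) := by rw [h1]; omega
  have := Module.nontrivial_of_finrank_pos h2
  obtain ⟨l, hl⟩ := exists_ne (0 : Rel W T X J)
  exact ⟨l.1, l.2, fun h0 => hl (Subtype.ext h0)⟩

/-- Minimal relations have nonzero components. -/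
theorem Rel_comp_ne (h : TwoRank W ρ N) {T X J : Finset ℚ} (hX : X ⊆ T) (hJ : J ⊆ T)
    (hc : X.card = ρ + 1) (ha : Around N X J) {l : Vx → W.Ω} (hl : l ∈ Rel W T X J) (h0 : l ≠ 0)
    {q : ℚ} (hq : q ∈ X) : l (q, false) ≠ 0 ∨ l (q, true) ≠ 0 := by
  by_contra hne
  push Not at hne
  have h1 := finrank_Rel h ((Finset.erase_subset q X).trans hX) hJ
    (by rw [Finset.card_erase_of_mem hq]; omega) (ha.anti (Finset.erase_subset q X))
  rw [Finset.card_erase_of_mem hq] at h1
  have h2 : finrank W.Ω (Rel W T (X.erase q) J) = 0 := by rw [h1]; omega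
  have h3 : l ∈ Rel W T (X.erase q) J := by
    refine mem_KerS_of_support (VV_mono (Finset.erase_subset q X)) hl ?_
    rintro ⟨p, a⟩ hx hx'
    rw [mem_VV] at hx hx'
    have hp : p = q := by
      by_contra hpq
      exact hx' (Finset.mem_erase.2 ⟨hpq, hx⟩)
    subst hp
    cases a
    · exact hne.1
    · exact hne.2
  rw [Submodule.finrank_eq_zero.1 h2, Submodule.mem_bot] at h3
  exact h0 h3

/-- Minimal relations are unique up to scaling. -/
theorem Rel_unique (h : TwoRank W ρ N) {T X J : Finset ℚ} (hX : X ⊆ T) (hJ : J ⊆ T)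
    (hc : X.card = ρ + 1) (ha : Around N X J) {l m : Vx → W.Ω} (hl : l ∈ Rel W T X J)
    (hm : m ∈ Rel W T X J) (h0 : m ≠ 0) : ∃ c : W.Ω, l = c • m := by
  have h1 : finrank W.Ω (Rel W T X J) = 1 := by
    rw [finrank_Rel h hX hJ (by omega) ha]; omega
  have h2 := (finrank_eq_one_iff_of_nonzero' (⟨m, hm⟩ : Rel W T X J)
    (fun h => h0 (congrArg Subtype.val h))).1 h1 ⟨l, hl⟩
  obtain ⟨c, hc⟩ := h2
  exact ⟨c, (congrArg Subtype.val hc).symm⟩

end Pool.Agent.Lib.MP_0c183c_co_P9S7
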