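import Pool.Agent.Lib.MP_0c183c_co_P9S7.Comp
import Pool.Agent.Lib.MP_0c183c_co_P9A.Two

set_option autoImplicit false

/-!
# `TwoRank` from helper72's dichotomy (the contradiction from `AZ` is `sec7` in `Comp`)
-/

namespace Pool.Agent.Lib.MP_0c183c_co_P9S7

open Module Pool.Agent.Lib.P9RankMat Pool.Agent.Lib.MP_0c183c_co_P9W

variable {W : World} {ρ N : ℕ}

theorem TwoRank.mono {N' : ℕ} (h : TwoRank W ρ N) (hN : N ≤ N') : TwoRank W ρ N' :=
  fun T X J hX hJ hc ha => h T X J hX hJ hc (ha.mono hN)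

/-- (H) gives `TwoRank`. -/
theorem twoRank_of_R2 (h : ∀ l v r : ℕ, 2 * v ≤ l → 2 * v ≤ r → W.R2 l v r = v + min v ρ) :
    TwoRank W ρ (8 * ρ + 16) := by
  intro T X J hX hJ hc ha
  rcases X.eq_empty_or_nonempty with rfl | hne
  · have h1 : rk (W.P T) (VV ∅) (VV J) ≤ (VV (∅ : Finset ℚ)).card := rk_le_card_left _ _ _
    rw [card_VV] at h1
    simp only [Finset.card_empty, mul_zero, Nat.le_zero, Nat.zero_min, add_zero] at h1 ⊢
    exact h1
  set A := J.filter (fun j => ∀ x ∈ X, j < x) with hA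
  set B := J.filter (fun j => ∀ x ∈ X, x < j) with hB
  have hAc : 8 * ρ + 16 ≤ A.card := by
    rw [hA]
    convert ha.2.1
  have hBc : 8 * ρ + 16 ≤ B.card := by
    rw [hB]
    convert ha.2.2
  have hJAB : J = A ∪ B := by
    ext j
    rw [Finset.mem_union, hA, hB, Finset.mem_filter, Finset.mem_filter]
    constructor
    · intro hj
      rcases ha.1 j hj with h1 | h1
      · exact Or.inl ⟨hj, h1⟩
      · exact Or.inr ⟨hj, h1⟩
    · rintro (hj | hj)
      · exact hj.1
      · exact hj.1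
  obtain ⟨x0, hx0⟩ := hne
  have h1 : ∀ a ∈ A, ∀ x ∈ X, a < x := fun a ha' => (Finset.mem_filter.1 ha').2
  have h2 : ∀ x ∈ X, ∀ b ∈ B, x < b := fun x hx b hb => (Finset.mem_filter.1 hb).2 x hx
  have h3 := W.rk_eq_two (T := T) (A := A) (X := X) (B := B)
    ((Finset.filter_subset _ _).trans hJ) hX ((Finset.filter_subset _ _).trans hJ) h1 h2
    (fun a ha' b hb => (h1 a ha' x0 hx0).trans (h2 x0 hx0 b hb))
  rw [h A.card X.card B.card (by omega) (by omega), ← hJAB] at h3
  exact h3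

end Pool.Agent.Lib.MP_0c183c_co_P9S7
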