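import Pool.Agent.Lib.MP_0c183c_co_P9W.World

set_option autoImplicit false

/-!
# Direct completion (case 7.4 of the bounded order theorem): pure linear algebra
-/

namespace Pool.Agent.Lib.MP_0c183c_co_P9S7

open Pool.Agent.Lib.MP_0c183c_co_P9W

variable {ι Ω : Type} [DecidableEq ι] [Field Ω]

/-- The pairing of a vector (restricted to `T`) with a vertex. -/
def row (T : Finset ι) (M : ι × Bool → ι × Bool → Ω) (κ : ι × Bool → Ω) (y : ι × Bool) : Ω :=
  ∑ i ∈ T, ∑ a : Bool, κ (i, a) * M (i, a) y

/-- A square matrix with many row relations up to few columns has small rank. -/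
theorem rank_le_of_relations {n r x : Type} [Fintype n] [DecidableEq n] [Fintype r]
    [Fintype x] (C : Matrix n n Ω) (κ : r → n → Ω) (hκ : LinearIndependent Ω κ) (e : x → n)
    (hrel : ∀ b : r, ∀ y : n, (∀ z : x, e z ≠ y) → Matrix.vecMul (κ b) C y = 0) :
    C.rank + Fintype.card r ≤ Fintype.card n + Fintype.card x := by
  classical
  let f : (n → Ω) →ₗ[Ω] (n → Ω) := Matrix.vecMulLinear C
  let L : (r → Ω) →ₗ[Ω] (n → Ω) := Fintype.linearCombination Ω κ
  have hL : Function.Injective L := by
    have := (linearIndependent_iff_injective_fintypeLinearCombination (R := Ω) (v := κ)).1 hκ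
    exact this
  let h : (r → Ω) →ₗ[Ω] (x → Ω) := (LinearMap.funLeft Ω Ω e).comp (f.comp L)
  have hker : ∀ c : r → Ω, h c = 0 → f (L c) = 0 := by
    intro c hc
    funext y
    by_cases hy : ∃ z : x, e z = y
    · obtain ⟨z, hz⟩ := hy
      have := congrFun hc z
      simp only [h, LinearMap.comp_apply, LinearMap.funLeft_apply] at this
      rw [← hz]
      simpa using this
    · push Not at hy
      have h1 : f (L c) = ∑ b : r, c b • f (κ b) := by
        simp only [L, Fintype.linearCombination_apply, map_sum, map_smul]
      rw [h1]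
      simp only [Finset.sum_apply, Pi.smul_apply, Pi.zero_apply]
      refine Finset.sum_eq_zero fun b _ => ?_
      have : f (κ b) y = 0 := hrel b y hy
      rw [this, smul_zero]
  have h1 := LinearMap.finrank_range_add_finrank_ker h
  have h2 : Module.finrank Ω (LinearMap.range h) ≤ Fintype.card x := by
    calc _ ≤ Module.finrank Ω (x → Ω) := Submodule.finrank_le _
      _ = Fintype.card x := Module.finrank_fintype_fun_eq_card Ω
  rw [Module.finrank_fintype_fun_eq_card] at h1
  have h3 : Module.finrank Ω (LinearMap.ker h) ≤ Module.finrank Ω (LinearMap.ker f) := by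
    let g : LinearMap.ker h →ₗ[Ω] LinearMap.ker f :=
      (L.comp (LinearMap.ker h).subtype).codRestrict _ (fun c => by
        rw [LinearMap.mem_ker]
        exact hker c.1 (LinearMap.mem_ker.1 c.2))
    refine LinearMap.finrank_le_finrank_of_injective (f := g) ?_
    intro c d hcd
    have : L c.1 = L d.1 := congrArg Subtype.val hcd
    exact Subtype.ext (hL this)
  have h4 := LinearMap.finrank_range_add_finrank_ker f
  rw [Module.finrank_fintype_fun_eq_card] at h4
  have h5 : C.rank = Module.finrank Ω (LinearMap.range f) := by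
    rw [← Matrix.rank_transpose, Matrix.rank, Matrix.mulVecLin_transpose]
  omega

end Pool.Agent.Lib.MP_0c183c_co_P9S7
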