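import Pool.Agent.Lib.MP_0c183c_co_P9S7.Transfer
import Pool.Agent.Lib.MP_0c183c_co_P9S7.Direct

set_option autoImplicit false

/-!
# Case 7c: the completion

If the off-part `OffQ` of minimal two-sided relations vanishes in one configuration (`AZ`), then
it vanishes for all minimal relations in a large world (`Transfer` and the automorphisms), and six
disjoint blocks of `ρ + 1` consecutive elements give six independent radical vectors of a finite
completion.
-/

namespace Pool.Agent.Lib.MP_0c183c_co_P9S7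

open Module Pool.Agent.Lib.P9RankMat Pool.Agent.Lib.MP_0c183c_co_P9W

private theorem exists_theta {F : Type*} [Field F] [CharP F 2] (Af At kf kt : F)
    (h : Af * kf + At * kt = 0) (hk : kf ≠ 0 ∨ kt ≠ 0) :
    ∃ θ : F, Af + kt * θ = 0 ∧ At + kf * θ = 0 := by
  have h2 : ∀ x : F, x + x = 0 := fun x => CharTwo.add_self_eq_zero x
  by_cases hkt : kt = 0
  · have hkf : kf ≠ 0 := by
      rcases hk with h | h
      · exact h
      · exact (h hkt).elim
    refine ⟨At / kf, ?_, ?_⟩
    · rw [hkt, mul_zero, add_zero] at h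
      rcases mul_eq_zero.1 h with h | h
      · rw [h, hkt, zero_mul, add_zero]
      · exact (hkf h).elim
    · rw [mul_div_cancel₀ _ hkf]
      exact h2 At
  · refine ⟨Af / kt, ?_, ?_⟩
    · rw [mul_div_cancel₀ _ hkt]
      exact h2 Af
    · field_simp
      linear_combination h

/-- Image of a frame under an order automorphism. -/
private theorem Around.map {N : ℕ} {X J : Finset ℚ} (h : Around N X J) (g : ℚ ≃o ℚ) :
    Around N (X.image g) (J.image g) := by
  have hinj : Function.Injective (g : ℚ → ℚ) := g.injective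
  refine ⟨?_, h.2.1.trans ?_, h.2.2.trans ?_⟩
  · intro j hj
    obtain ⟨i, hi, rfl⟩ := Finset.mem_image.1 hj
    rcases h.1 i hi with h1 | h1
    · left
      intro x hx
      obtain ⟨y, hy, rfl⟩ := Finset.mem_image.1 hx
      exact g.lt_iff_lt.2 (h1 y hy)
    · right
      intro x hx
      obtain ⟨y, hy, rfl⟩ := Finset.mem_image.1 hx
      exact g.lt_iff_lt.2 (h1 y hy)
  · rw [← Finset.card_image_of_injective _ hinj]
    refine Finset.card_le_card fun j hj => ?_
    obtain ⟨i, hi, rfl⟩ := Finset.mem_image.1 hj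
    rw [Finset.mem_filter] at hi ⊢
    refine ⟨Finset.mem_image_of_mem _ hi.1, ?_⟩
    intro x hx
    obtain ⟨y, hy, rfl⟩ := Finset.mem_image.1 hx
    exact g.lt_iff_lt.2 (hi.2 y hy)
  · rw [← Finset.card_image_of_injective _ hinj]
    refine Finset.card_le_card fun j hj => ?_
    obtain ⟨i, hi, rfl⟩ := Finset.mem_image.1 hj
    rw [Finset.mem_filter] at hi ⊢
    refine ⟨Finset.mem_image_of_mem _ hi.1, ?_⟩
    intro x hx
    obtain ⟨y, hy, rfl⟩ := Finset.mem_image.1 hx
    exact g.lt_iff_lt.2 (hi.2 y hy)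

/-- Transport of the vanishing of the off-part by an automorphism. -/
private theorem AZ_map {W : World} {T0 Z0 J0 : Finset ℚ} {q0 : ℚ} (hZ : Z0 ⊆ T0) (hJ : J0 ⊆ T0)
    (hq : q0 ∈ Z0)
    (h : ∀ T, T0 ⊆ T → ∀ κ ∈ Rel W T Z0 J0, OffQ W T Z0 κ q0 = 0) (g : ℚ ≃o ℚ)
    {T : Finset ℚ} (hT : T0.image g ⊆ T) {κ : Vx → W.Ω}
    (hκ : κ ∈ Rel W T (Z0.image g) (J0.image g)) : OffQ W T (Z0.image g) κ (g q0) = 0 := by
  obtain ⟨σ, hσ⟩ := W.aut g
  have hinj : Function.Injective (g : ℚ → ℚ) := g.injective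
  set T' : Finset ℚ := T.image g.symm with hT'
  have hTT : T'.image g = T := by
    have e : (g : ℚ → ℚ) ∘ (g.symm : ℚ → ℚ) = id := by
      funext x
      simp
    rw [hT', Finset.image_image, e, Finset.image_id]
  have hsub : T0 ⊆ T' := by
    intro x hx
    rw [hT', Finset.mem_image]
    exact ⟨g x, hT (Finset.mem_image_of_mem _ hx), by simp⟩
  set κ' : Vx → W.Ω := fun x => σ.symm (κ (g x.1, x.2)) with hκ'
  have hσκ : ∀ x : Vx, σ (κ' x) = κ (g x.1, x.2) := fun x => by
    simp [hκ']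
  -- transport of sums
  have hsum : ∀ (X : Finset ℚ) (y : Vx), X ⊆ T' → y.1 ∈ T' →
      σ (∑ x ∈ VV X, κ' x * W.P T' x y) =
        ∑ x ∈ VV (X.image g), κ x * W.P T x (g y.1, y.2) := by
    intro X y hX hy
    rw [map_sum]
    refine Finset.sum_bij (fun x _ => (g x.1, x.2)) ?_ ?_ ?_ ?_
    · intro x hx
      rw [mem_VV] at hx ⊢
      exact Finset.mem_image_of_mem _ hx
    · rintro ⟨x, a⟩ _ ⟨y, b⟩ _ h1
      have h2 := (Prod.mk.injEq _ _ _ _ ▸ h1 : g x = g y ∧ a = b)
      exact Prod.ext (hinj h2.1) h2.2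
    · rintro ⟨x, a⟩ hx
      rw [mem_VV] at hx
      obtain ⟨z, hz, hzx⟩ := Finset.mem_image.1 hx
      exact ⟨(z, a), mem_VV.2 hz, Prod.ext hzx rfl⟩
    · intro x hx
      rw [map_mul, hσκ, hσ T' x y (hX (mem_VV.1 hx)) hy, hTT]
  have hmem : κ' ∈ Rel W T' Z0 J0 := by
    refine ⟨fun x hx => ?_, fun y hy => ?_⟩
    · have h1 : κ (g x.1, x.2) = 0 := by
        refine hκ.1 _ fun hx' => hx ?_
        rw [mem_VV] at hx' ⊢
        obtain ⟨z, hz, hzx⟩ := Finset.mem_image.1 hx'
        rwa [← hinj hzx]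
      simp only [hκ', h1, map_zero]
    · apply σ.injective
      rw [hsum Z0 y (hZ.trans hsub) ((hJ.trans hsub) (mem_VV.1 hy)), map_zero]
      exact hκ.2 _ (mem_VV.2 (Finset.mem_image_of_mem _ (mem_VV.1 hy)))
  have h0 := h T' hsub κ' hmem
  have h1 := congrArg σ h0
  rw [map_zero, OffQ, map_sum] at h1
  rw [OffQ, ← h1]
  refine Finset.sum_congr rfl fun a _ => ?_
  rw [map_mul, hσκ, hsum (Z0.erase q0) (q0, a) (((Finset.erase_subset _ _).trans hZ).trans hsub)
    (hsub (hZ hq)), Finset.image_erase hinj]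

/-- A finite partial isomorphism between countable dense orders without endpoints extends to an
order isomorphism (Cantor's back and forth). -/
private theorem exists_orderIso_ext {α β : Type*} [LinearOrder α] [LinearOrder β]
    [Countable α] [DenselyOrdered α] [NoMinOrder α] [NoMaxOrder α] [Nonempty α]
    [Countable β] [DenselyOrdered β] [NoMinOrder β] [NoMaxOrder β] [Nonempty β]
    (p : Finset (α × β)) (hp : ∀ x ∈ p, ∀ y ∈ p, cmp x.1 y.1 = cmp x.2 y.2) :
    ∃ e : α ≃o β, ∀ x ∈ p, e x.1 = x.2 := by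
  cases nonempty_encodable α
  cases nonempty_encodable β
  let p0 : Order.PartialIso α β := ⟨p, hp⟩
  let to_cofinal : α ⊕ β → Order.Cofinal (Order.PartialIso α β) := fun q ↦
    Sum.recOn q (Order.PartialIso.definedAtLeft β) (Order.PartialIso.definedAtRight α)
  let our_ideal : Order.Ideal (Order.PartialIso α β) := Order.idealOfCofinals p0 to_cofinal
  have hp0 : p0 ∈ our_ideal := Order.mem_idealOfCofinals p0 to_cofinal
  let F a := Order.PartialIso.funOfIdeal a our_ideal
    (Order.cofinal_meets_idealOfCofinals _ to_cofinal (Sum.inl a))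
  let G b := Order.PartialIso.invOfIdeal b our_ideal
    (Order.cofinal_meets_idealOfCofinals _ to_cofinal (Sum.inr b))
  refine ⟨OrderIso.ofCmpEqCmp (fun a ↦ (F a).val) (fun b ↦ (G b).val) fun a b ↦ by
      rcases (F a).prop with ⟨f, hf, ha⟩
      rcases (G b).prop with ⟨g, hg, hb⟩
      rcases our_ideal.directed _ hf _ hg with ⟨m, _, fm, gm⟩
      exact m.prop (a, _) (fm ha) (_, b) (gm hb), ?_⟩
  rintro ⟨a, b⟩ hab
  show (F a).val = b
  rcases (F a).prop with ⟨f, hf, ha⟩
  rcases our_ideal.directed _ hf _ hp0 with ⟨m, _, fm, gm⟩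
  have h := m.prop (a, _) (fm ha) (a, b) (gm hab)
  rw [cmp_self_eq_eq] at h
  exact cmp_eq_eq_iff _ _ |>.1 h.symm

/-- An embedding of a finite set in an interval of integers with prescribed centre. -/
private theorem exists_embed (T0 : Finset ℚ) (q0 : ℚ) (hq : q0 ∈ T0) (m n : ℕ)
    (hm : T0.card ≤ m) (hn : m + T0.card ≤ n) :
    ∃ g : ℚ ≃o ℚ, g q0 = (m : ℚ) ∧ T0.image g ⊆ (Finset.range n).image (fun i : ℕ => (i : ℚ)) := by
  -- rank of `x` in `T0`
  let r : ℚ → ℕ := fun x => (T0.filter (fun y => y < x)).card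
  have hr : ∀ x ∈ T0, ∀ y ∈ T0, x < y → r x < r y := by
    intro x hx y hy hxy
    refine Finset.card_lt_card ⟨?_, ?_⟩
    · intro z hz
      rw [Finset.mem_filter] at hz ⊢
      exact ⟨hz.1, hz.2.trans hxy⟩
    · intro h
      have := h (Finset.mem_filter.2 ⟨hx, hxy⟩)
      rw [Finset.mem_filter] at this
      exact lt_irrefl _ this.2
  have hrlt : ∀ x ∈ T0, r x < T0.card := by
    intro x hx
    refine Finset.card_lt_card ⟨Finset.filter_subset _ _, fun h => ?_⟩
    have := h hx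
    rw [Finset.mem_filter] at this
    exact lt_irrefl _ this.2
  let F : ℚ → ℕ := fun x => m + r x - r q0
  have hF : ∀ x ∈ T0, ∀ y ∈ T0, x < y → F x < F y := by
    intro x hx y hy hxy
    have h1 := hr x hx y hy hxy
    have h2 := hrlt q0 hq
    simp only [F]
    omega
  let p : Finset (ℚ × ℚ) := T0.image fun x => (x, (F x : ℚ))
  obtain ⟨g, hg⟩ := exists_orderIso_ext (α := ℚ) (β := ℚ) p (by
    intro x' hx' y' hy'
    obtain ⟨x, hx, rfl⟩ := Finset.mem_image.1 hx'
    obtain ⟨y, hy, rfl⟩ := Finset.mem_image.1 hy'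
    simp only
    rcases lt_trichotomy x y with h | h | h
    · have h1 : ((F x : ℕ) : ℚ) < F y := by exact_mod_cast hF x hx y hy h
      rw [(cmp_eq_lt_iff x y).2 h, (cmp_eq_lt_iff _ _).2 h1]
    · rw [h, (cmp_eq_eq_iff y y).2 rfl, (cmp_eq_eq_iff _ _).2 rfl]
    · have h1 : ((F y : ℕ) : ℚ) < F x := by exact_mod_cast hF y hy x hx h
      rw [(cmp_eq_gt_iff x y).2 h, (cmp_eq_gt_iff _ _).2 h1])
  have hg' : ∀ x ∈ T0, g x = (F x : ℚ) := fun x hx => hg (x, (F x : ℚ))
    (Finset.mem_image_of_mem _ hx)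
  refine ⟨g, ?_, ?_⟩
  · rw [hg' q0 hq]
    have : F q0 = m := by simp [F]
    rw [this]
  · intro y hy
    obtain ⟨x, hx, rfl⟩ := Finset.mem_image.1 hy
    rw [hg' x hx]
    refine Finset.mem_image_of_mem _ (Finset.mem_range.2 ?_)
    have h1 := hrlt x hx
    have h2 := hrlt q0 hq
    simp only [F]
    omega

/-- Integers as a set of rationals. -/
private def Iv (a b : ℕ) : Finset ℚ := (Finset.Ico a b).image (fun i : ℕ => (i : ℚ))

private theorem mem_Iv {a b : ℕ} {q : ℚ} : q ∈ Iv a b ↔ ∃ i : ℕ, a ≤ i ∧ i < b ∧ (i : ℚ) = q := by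
  simp [Iv, Finset.mem_image, and_assoc]

private theorem card_Iv (a b : ℕ) : (Iv a b).card = b - a := by
  rw [Iv, Finset.card_image_of_injective _ Nat.cast_injective, Nat.card_Ico]

private theorem around_Iv {N m k n : ℕ} (hk : 0 < k) (hm : N ≤ m) (hn : m + k + N ≤ n) :
    Around N (Iv m (m + k)) (Iv 0 n \ Iv m (m + k)) := by
  refine ⟨?_, ?_, ?_⟩
  · intro j hj
    rw [Finset.mem_sdiff, mem_Iv] at hj
    obtain ⟨⟨i, -, hi, rfl⟩, hj⟩ := hj
    by_cases h : i < m
    · left
      intro x hx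
      obtain ⟨l, hl, -, rfl⟩ := mem_Iv.1 hx
      exact_mod_cast h.trans_le hl
    · right
      intro x hx
      obtain ⟨l, hl, hl2, rfl⟩ := mem_Iv.1 hx
      have h1 : m + k ≤ i := by
        by_contra h2
        exact hj (mem_Iv.2 ⟨i, by omega, by omega, rfl⟩)
      exact_mod_cast hl2.trans_le h1
  · have h1 : (Iv 0 m).card ≤ ((Iv 0 n \ Iv m (m + k)).filter
        (fun j => ∀ x ∈ Iv m (m + k), j < x)).card := by
      refine Finset.card_le_card fun j hj => ?_
      obtain ⟨i, -, hi, rfl⟩ := mem_Iv.1 hj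
      rw [Finset.mem_filter, Finset.mem_sdiff]
      refine ⟨⟨mem_Iv.2 ⟨i, by omega, by omega, rfl⟩, ?_⟩, ?_⟩
      · rw [mem_Iv]
        rintro ⟨l, hl, -, hl2⟩
        have : l = i := by exact_mod_cast hl2
        omega
      · intro x hx
        obtain ⟨l, hl, -, rfl⟩ := mem_Iv.1 hx
        exact_mod_cast hi.trans_le hl
    rw [card_Iv] at h1
    omega
  · have h1 : (Iv (m + k) n).card ≤ ((Iv 0 n \ Iv m (m + k)).filter
        (fun j => ∀ x ∈ Iv m (m + k), x < j)).card := by
      refine Finset.card_le_card fun j hj => ?_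
      obtain ⟨i, hi0, hi, rfl⟩ := mem_Iv.1 hj
      rw [Finset.mem_filter, Finset.mem_sdiff]
      refine ⟨⟨mem_Iv.2 ⟨i, by omega, by omega, rfl⟩, ?_⟩, ?_⟩
      · rw [mem_Iv]
        rintro ⟨l, hl, hl1, hl2⟩
        have : l = i := by exact_mod_cast hl2
        omega
      · intro x hx
        obtain ⟨l, hl, hl1, rfl⟩ := mem_Iv.1 hx
        exact_mod_cast hl1.trans_le hi0
    rw [card_Iv] at h1
    omega

/-- A minimal relation is in the left kernel of the completion by a suitable `θ`. -/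
private theorem row_completed {W : World} {T X : Finset ℚ} (hX : X ⊆ T) {κ : Vx → W.Ω}
    (hκ : κ ∈ Rel W T X (T \ X)) (θ : ℚ → W.Ω)
    (hθ : ∀ q ∈ X, (∑ x ∈ VV (X.erase q), κ x * W.P T x (q, false)) + κ (q, true) * θ q = 0 ∧
      (∑ x ∈ VV (X.erase q), κ x * W.P T x (q, true)) + κ (q, false) * θ q = 0)
    (y : T × Bool) :
    Matrix.vecMul (fun x : T × Bool => κ (x.1, x.2)) (completed T (W.P T) θ) y = 0 := by
  classical
  obtain ⟨⟨q, hq⟩, a⟩ := y
  -- the sum over the world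
  let c : Vx → W.Ω := fun x => κ x * (if x.1 = q then (if x.2 = a then 0 else θ x.1)
    else W.P T x (q, a))
  have h1 : Matrix.vecMul (fun x : T × Bool => κ (x.1, x.2)) (completed T (W.P T) θ) (⟨q, hq⟩, a) =
      ∑ x ∈ VV X, c x := by
    have e1 : Matrix.vecMul (fun x : T × Bool => κ (x.1, x.2)) (completed T (W.P T) θ)
        (⟨q, hq⟩, a) = ∑ x : T × Bool, c (x.1, x.2) := by
      simp only [Matrix.vecMul, dotProduct, completed, c]
      refine Finset.sum_congr rfl fun x _ => ?_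
      congr 1
      by_cases hx : x.1 = ⟨q, hq⟩
      · have hx' : (x.1 : ℚ) = q := congrArg Subtype.val hx
        rw [if_pos hx, if_pos hx']
      · have hx' : (x.1 : ℚ) ≠ q := fun h => hx (Subtype.ext h)
        rw [if_neg hx, if_neg hx']
    have e2 : ∑ x : T × Bool, c (x.1, x.2) = ∑ x ∈ VV T, c x := by
      rw [VV, Finset.sum_product, Fintype.sum_prod_type, ← Finset.sum_coe_sort T]
    rw [e1, e2]
    refine (Finset.sum_subset (VV_mono hX) fun x _ hx => ?_).symm
    simp only [c]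
    rw [hκ.1 x hx, zero_mul]
  rw [h1]
  by_cases hqX : q ∈ X
  · have h2 : ∑ x ∈ VV X, c x = ∑ x ∈ VV (X.erase q), c x + ∑ b : Bool, c (q, b) := by
      rw [VV, Finset.sum_product, VV, Finset.sum_product]
      exact (Finset.sum_erase_add X _ hqX).symm
    have h3 : ∑ x ∈ VV (X.erase q), c x = ∑ x ∈ VV (X.erase q), κ x * W.P T x (q, a) := by
      refine Finset.sum_congr rfl fun x hx => ?_
      have hne : x.1 ≠ q := (Finset.mem_erase.1 (mem_VV.1 hx)).1
      simp only [c]
      rw [if_neg hne]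
    rw [h2, h3, Fintype.sum_bool]
    cases a
    · have := (hθ q hqX).1
      simpa [c] using this
    · have := (hθ q hqX).2
      simpa [c] using this
  · have h2 : ∀ x ∈ VV X, c x = κ x * W.P T x (q, a) := by
      intro x hx
      have hne : x.1 ≠ q := fun h => hqX (h ▸ mem_VV.1 hx)
      simp only [c]
      rw [if_neg hne]
    rw [Finset.sum_congr rfl h2]
    exact hκ.2 (q, a) (mem_VV.2 (Finset.mem_sdiff.2 ⟨hq, hqX⟩))

private theorem sec7c_aux {W : World} {ρ N : ℕ} (H : TwoRank W ρ N) (hT : Transfer W ρ N)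
    (hA : AZ W ρ N) : False := by
  classical
  obtain ⟨T0, Z0, J0, q0, hZ0, hJ0, hZc, hq0, haZ, hoff⟩ := hA
  have : CharP W.Ω 2 := charP_of_injective_algebraMap (algebraMap (ZMod 2) W.Ω).injective 2
  set S : ℕ := N + T0.card with hS
  set k : ℕ := ρ + 1 with hk
  set n : ℕ := S + 6 * k + S with hn
  set T : Finset ℚ := Iv 0 n with hTd
  have hTr : T = (Finset.range n).image (fun i : ℕ => (i : ℚ)) := by
    rw [hTd, Iv, Nat.Ico_zero_eq_range]
  let β : Fin 6 → Finset ℚ := fun b => Iv (S + b * k) (S + b * k + k)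
  have hkpos : 0 < k := Nat.succ_pos ρ
  have hb6 : ∀ b : Fin 6, (b : ℕ) * k + k ≤ 6 * k := by
    intro b
    have : ((b : ℕ) + 1) * k ≤ 6 * k := Nat.mul_le_mul_right k b.2
    linarith
  have hβT : ∀ b, β b ⊆ T := by
    intro b q hq
    obtain ⟨i, hi, hi2, rfl⟩ := mem_Iv.1 hq
    have := hb6 b
    exact mem_Iv.2 ⟨i, Nat.zero_le _, by omega, rfl⟩
  have hβc : ∀ b, (β b).card = ρ + 1 := by
    intro b
    rw [card_Iv]
    omega
  have haβ : ∀ b, Around N (β b) (T \ β b) := by
    intro b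
    have := hb6 b
    exact around_Iv hkpos (by omega) (by omega)
  have hdisj : ∀ b b' : Fin 6, ∀ q, q ∈ β b → q ∈ β b' → b = b' := by
    intro b b' q hq hq'
    obtain ⟨i, hi, hi2, rfl⟩ := mem_Iv.1 hq
    obtain ⟨l, hl, hl2, hli⟩ := mem_Iv.1 hq'
    have hli' : l = i := by exact_mod_cast hli
    subst hli'
    apply Fin.ext
    have h1 : (b : ℕ) * k < (b' : ℕ) * k + k := by omega
    have h2 : (b' : ℕ) * k < (b : ℕ) * k + k := by omega
    have h3 : (b : ℕ) < (b' : ℕ) + 1 := by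
      by_contra hc
      have h4 : ((b' : ℕ) + 1) * k ≤ (b : ℕ) * k := Nat.mul_le_mul_right k (not_lt.1 hc)
      linarith [h4, h1, add_mul (b' : ℕ) 1 k]
    have h4 : (b' : ℕ) < (b : ℕ) + 1 := by
      by_contra hc
      have h4 : ((b : ℕ) + 1) * k ≤ (b' : ℕ) * k := Nat.mul_le_mul_right k (not_lt.1 hc)
      linarith [h4, h2, add_mul (b : ℕ) 1 k]
    omega
  have hrel : ∀ b, ∃ l ∈ Rel W T (β b) (T \ β b), l ≠ 0 := fun b =>
    exists_Rel H (hβT b) Finset.sdiff_subset (hβc b) (haβ b)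
  choose κ hκ hκ0 using hrel
  -- the off-parts vanish
  have hoffβ : ∀ b, ∀ q ∈ β b, OffQ W T (β b) (κ b) q = 0 := by
    intro b q hq
    obtain ⟨i, hi, hi2, rfl⟩ := mem_Iv.1 hq
    have hb := hb6 b
    obtain ⟨g, hg, hgT⟩ := exists_embed T0 q0 (hZ0 hq0) i n (by omega) (by omega)
    rw [← hTr] at hgT
    have hZg : Z0.image g ⊆ T := (Finset.image_subset_image hZ0).trans hgT
    have hJg : J0.image g ⊆ T := (Finset.image_subset_image hJ0).trans hgT
    have hcg : (Z0.image g).card = ρ + 1 := by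
      rw [Finset.card_image_of_injective _ g.injective, hZc]
    have hag := haZ.map g
    obtain ⟨κ', hκ', hκ'0⟩ := exists_Rel H hZg hJg hcg hag
    have h0 := AZ_map hZ0 hJ0 hq0 hoff g hgT hκ'
    rw [hg] at h0
    refine hT T (β b) (Z0.image g) (T \ β b) (J0.image g) (i : ℚ) (κ b) κ' (hβT b) hZg
      Finset.sdiff_subset hJg (hβc b) hcg (haβ b) hag hq ?_ (hκ b) hκ' hκ'0 h0
    rw [← hg]
    exact Finset.mem_image_of_mem _ hq0
  -- the parameters
  have hθ : ∀ q : ℚ, ∃ θ : W.Ω, ∀ b, q ∈ β b →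
      (∑ x ∈ VV ((β b).erase q), κ b x * W.P T x (q, false)) + κ b (q, true) * θ = 0 ∧
      (∑ x ∈ VV ((β b).erase q), κ b x * W.P T x (q, true)) + κ b (q, false) * θ = 0 := by
    intro q
    by_cases h : ∃ b, q ∈ β b
    · obtain ⟨b, hb⟩ := h
      have h1 := hoffβ b q hb
      rw [OffQ, Fintype.sum_bool] at h1
      have h2 := Rel_comp_ne H (hβT b) Finset.sdiff_subset (hβc b) (haβ b) (hκ b) (hκ0 b) hb
      obtain ⟨θ, hθ1, hθ2⟩ := exists_theta _ _ (κ b (q, false)) (κ b (q, true))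
        (by rw [add_comm]; exact h1) h2
      refine ⟨θ, fun b' hb' => ?_⟩
      obtain rfl := hdisj b b' q hb hb'
      exact ⟨hθ1, hθ2⟩
    · exact ⟨0, fun b hb => (h ⟨b, hb⟩).elim⟩
  choose θ hθ using hθ
  -- the six vectors
  let v : Fin 6 → (T × Bool) → W.Ω := fun b x => κ b (x.1, x.2)
  have hv : LinearIndependent W.Ω v := by
    rw [Fintype.linearIndependent_iff]
    intro c hc b
    have h1 : ∃ y : Vx, y ∈ VV (β b) ∧ κ b y ≠ 0 := by
      by_contra hne
      push Not at hne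
      apply hκ0 b
      funext y
      by_cases hy : y ∈ VV (β b)
      · exact hne y hy
      · exact (hκ b).1 y hy
    obtain ⟨y, hy, hy0⟩ := h1
    have hyT : y.1 ∈ T := hβT b (mem_VV.1 hy)
    have h2 := congrFun hc (⟨y.1, hyT⟩, y.2)
    simp only [Finset.sum_apply, Pi.smul_apply, smul_eq_mul, Pi.zero_apply] at h2
    rw [Finset.sum_eq_single b] at h2
    · rcases mul_eq_zero.1 h2 with h3 | h3
      · exact h3
      · exact (hy0 h3).elim
    · intro b' _ hb'
      have h3 : κ b' y = 0 := by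
        refine (hκ b').1 y fun h => hb' ?_
        exact hdisj b' b y.1 (mem_VV.1 h) (mem_VV.1 hy)
      change c b' * κ b' (y.1, y.2) = 0
      rw [Prod.mk.eta, h3, mul_zero]
    · intro h
      exact (h (Finset.mem_univ b)).elim
  have hfin := rank_le_of_relations (completed T (W.P T) θ) v hv (Fin.elim0 : Fin 0 → T × Bool)
    (fun b y _ => row_completed (hβT b) (hκ b) θ (fun q hq => hθ q b hq) y)
  have hno := W.nocomp T θ
  rw [Fintype.card_prod, Fintype.card_coe, Fintype.card_bool, Fintype.card_fin, Fintype.card_fin]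
    at hfin
  omega

/-- The configuration of `AZ` can be enlarged. -/
private theorem AZ_grow {W : World} {ρ N : ℕ} (hA : AZ W ρ N) (M : ℕ) : AZ W ρ M := by
  obtain ⟨T0, Z0, J0, q0, hZ0, hJ0, hZc, hq0, haZ, hoff⟩ := hA
  have hne : Z0.Nonempty := ⟨q0, hq0⟩
  set L : Finset ℚ := (Finset.range M).image fun i : ℕ => Z0.min' hne - 1 - i with hL
  set R : Finset ℚ := (Finset.range M).image fun i : ℕ => Z0.max' hne + 1 + i with hR
  have hLlt : ∀ j ∈ L, ∀ x ∈ Z0, j < x := by
    intro j hj x hx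
    obtain ⟨i, -, rfl⟩ := Finset.mem_image.1 hj
    have h1 := Finset.min'_le Z0 x hx
    have h2 : (0 : ℚ) ≤ (i : ℚ) := Nat.cast_nonneg i
    linarith
  have hRlt : ∀ j ∈ R, ∀ x ∈ Z0, x < j := by
    intro j hj x hx
    obtain ⟨i, -, rfl⟩ := Finset.mem_image.1 hj
    have h1 := Finset.le_max' Z0 x hx
    have h2 : (0 : ℚ) ≤ (i : ℚ) := Nat.cast_nonneg i
    linarith
  have hLc : L.card = M := by
    rw [hL, Finset.card_image_of_injective, Finset.card_range]
    intro i j hij
    have h1 : (i : ℚ) = j := by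
      have h2 : Z0.min' hne - 1 - (i : ℚ) = Z0.min' hne - 1 - (j : ℚ) := hij
      linarith
    exact_mod_cast h1
  have hRc : R.card = M := by
    rw [hR, Finset.card_image_of_injective, Finset.card_range]
    intro i j hij
    have h1 : (i : ℚ) = j := by
      have h2 : Z0.max' hne + 1 + (i : ℚ) = Z0.max' hne + 1 + (j : ℚ) := hij
      linarith
    exact_mod_cast h1
  refine ⟨T0 ∪ (L ∪ R), Z0, J0 ∪ (L ∪ R), q0, hZ0.trans Finset.subset_union_left,
    Finset.union_subset_union_left hJ0, hZc, hq0, ⟨?_, ?_, ?_⟩, ?_⟩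
  · intro j hj
    rcases Finset.mem_union.1 hj with hj | hj
    · exact haZ.1 j hj
    · rcases Finset.mem_union.1 hj with hj | hj
      · exact Or.inl (hLlt j hj)
      · exact Or.inr (hRlt j hj)
  · rw [← hLc]
    refine Finset.card_le_card fun j hj => Finset.mem_filter.2 ⟨?_, hLlt j hj⟩
    exact Finset.mem_union_right _ (Finset.mem_union_left _ hj)
  · rw [← hRc]
    refine Finset.card_le_card fun j hj => Finset.mem_filter.2 ⟨?_, hRlt j hj⟩
    exact Finset.mem_union_right _ (Finset.mem_union_right _ hj)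
  · intro T hT κ hκ
    exact hoff T (Finset.subset_union_left.trans hT) κ
      (KerS_anti_right _ (VV_mono Finset.subset_union_left) hκ)

/-- Case 7c. -/
theorem sec7c {W : World} {ρ N N' N'' : ℕ} (H : TwoRank W ρ N) (hT : Transfer W ρ N')
    (hA : AZ W ρ N'') : False := by
  have h1 : TwoRank W ρ (max N N') := fun T X J hX hJ hc ha =>
    H T X J hX hJ hc (ha.mono (le_max_left _ _))
  have h2 : Transfer W ρ (max N N') := fun T X X' J J' q κ κ' hX hX' hJ hJ' hc hc' ha ha' =>
    hT T X X' J J' q κ κ' hX hX' hJ hJ' hc hc' (ha.mono (le_max_right _ _))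
      (ha'.mono (le_max_right _ _))
  exact sec7c_aux h1 h2 (AZ_grow hA _)

/-- Case 7, complete: the two-sided rank hypothesis and the vanishing of one off-part. -/
theorem sec7 {W : World} {ρ N N'' : ℕ} (H : TwoRank W ρ N) (hA : AZ W ρ N'') : False :=
  sec7c H (transfer H) hA

end Pool.Agent.Lib.MP_0c183c_co_P9S7
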