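import Pool.Agent.Lib.MP_0c183c_co_P9S7.Two

set_option autoImplicit false
set_option linter.unusedSectionVars false

/-!
# The global lines of the two-sided relations
-/

namespace Pool.Agent.Lib.MP_0c183c_co_P9S7

open Module Pool.Agent.Lib.P9RankMat Pool.Agent.Lib.MP_0c183c_co_P9W

/-- Transitivity of proportionality through a nonzero vector of the plane. -/
theorem prop_trans {K : Type*} [Field K] {a b c d e f : K} (h1 : a * d = b * c)
    (h2 : e * d = f * c) (h0 : c ≠ 0 ∨ d ≠ 0) : a * f = b * e := by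
  rcases h0 with h0 | h0
  · apply mul_left_cancel₀ h0
    calc c * (a * f) = a * (f * c) := by ring
      _ = a * (e * d) := by rw [h2]
      _ = (a * d) * e := by ring
      _ = (b * c) * e := by rw [h1]
      _ = c * (b * e) := by ring
  · apply mul_left_cancel₀ h0
    calc d * (a * f) = (a * d) * f := by ring
      _ = (b * c) * f := by rw [h1]
      _ = b * (f * c) := by ring
      _ = b * (e * d) := by rw [h2]
      _ = d * (b * e) := by ring

/-- The top `k` elements of a finite set. -/
theorem exists_top {α : Type*} [LinearOrder α] (L : Finset α) (k : ℕ) (hk : k ≤ L.card) :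
    ∃ S ⊆ L, S.card = k ∧ ∀ x ∈ L \ S, ∀ y ∈ S, x < y := by
  induction k with
  | zero => exact ⟨∅, by simp, by simp, by simp⟩
  | succ k ih =>
    obtain ⟨S, hS, hc, h⟩ := ih (by omega)
    have hne : (L \ S).Nonempty := by
      rw [← Finset.card_pos, Finset.card_sdiff_of_subset hS]
      omega
    have hm := Finset.max'_mem (L \ S) hne
    set m := (L \ S).max' hne with hmdef
    rw [Finset.mem_sdiff] at hm
    refine ⟨insert m S, Finset.insert_subset hm.1 hS, by
      rw [Finset.card_insert_of_notMem hm.2, hc], ?_⟩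
    intro x hx y hy
    rw [Finset.mem_sdiff, Finset.mem_insert, not_or] at hx
    rcases Finset.mem_insert.1 hy with rfl | hy
    · exact lt_of_le_of_ne (Finset.le_max' _ _ (Finset.mem_sdiff.2 ⟨hx.1, hx.2.2⟩)) hx.2.1
    · exact h x (Finset.mem_sdiff.2 ⟨hx.1, hx.2.2⟩) y hy

/-- The bottom `k` elements of a finite set. -/
theorem exists_bot {α : Type*} [LinearOrder α] (L : Finset α) (k : ℕ) (hk : k ≤ L.card) :
    ∃ S ⊆ L, S.card = k ∧ ∀ x ∈ L \ S, ∀ y ∈ S, y < x := by
  induction k with
  | zero => exact ⟨∅, by simp, by simp, by simp⟩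
  | succ k ih =>
    obtain ⟨S, hS, hc, h⟩ := ih (by omega)
    have hne : (L \ S).Nonempty := by
      rw [← Finset.card_pos, Finset.card_sdiff_of_subset hS]
      omega
    have hm := Finset.min'_mem (L \ S) hne
    set m := (L \ S).min' hne with hmdef
    rw [Finset.mem_sdiff] at hm
    refine ⟨insert m S, Finset.insert_subset hm.1 hS, by
      rw [Finset.card_insert_of_notMem hm.2, hc], ?_⟩
    intro x hx y hy
    rw [Finset.mem_sdiff, Finset.mem_insert, not_or] at hx
    rcases Finset.mem_insert.1 hy with rfl | hy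
    · exact lt_of_le_of_ne (Finset.min'_le _ _ (Finset.mem_sdiff.2 ⟨hx.1, hx.2.2⟩))
        (fun h => hx.2.1 h.symm)
    · exact h x (Finset.mem_sdiff.2 ⟨hx.1, hx.2.2⟩) y hy

/-- A minimal frame at `q` which avoids the side of `c`. -/
theorem exists_side {N ρ : ℕ} {X J : Finset ℚ} {q c : ℚ} (hq : q ∈ X) (hc : c ≠ q)
    (ha : Around (N + ρ) X J) : ∃ Y K : Finset ℚ, q ∈ Y ∧ Y ⊆ X ∪ J ∧ K ⊆ J ∧
      Y.card = ρ + 1 ∧ Around N Y K ∧ Out Y c := by
  rcases lt_or_gt_of_ne hc with hlt | hlt
  · -- `c < q`: use the right side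
    set L := J.filter (fun j => ∀ x ∈ X, x < j) with hL
    have hLc : N + ρ ≤ L.card := by
      rw [hL]
      convert ha.2.2
    obtain ⟨S, hS, hSc, hSt⟩ := exists_bot L ρ (by omega)
    have hqS : q ∉ S := fun h => lt_irrefl q ((Finset.mem_filter.1 (hS h)).2 q hq)
    have hqlt : ∀ y ∈ S, q < y := fun y hy => (Finset.mem_filter.1 (hS hy)).2 q hq
    refine ⟨insert q S, J.filter (fun j => ∀ x ∈ X, j < x) ∪ (L \ S), Finset.mem_insert_self _ _,
      ?_, ?_, by rw [Finset.card_insert_of_notMem hqS, hSc], ⟨?_, ?_, ?_⟩, ?_⟩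
    · exact Finset.insert_subset (Finset.mem_union_left _ hq)
        ((hS.trans (Finset.filter_subset _ _)).trans Finset.subset_union_right)
    · exact Finset.union_subset (Finset.filter_subset _ _)
        (Finset.sdiff_subset.trans (Finset.filter_subset _ _))
    · intro j hj
      rcases Finset.mem_union.1 hj with hj | hj
      · left
        intro x hx
        have h1 := (Finset.mem_filter.1 hj).2 q hq
        rcases Finset.mem_insert.1 hx with rfl | hx
        · exact h1
        · exact h1.trans (hqlt x hx)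
      · right
        intro x hx
        rcases Finset.mem_insert.1 hx with rfl | hx
        · exact (Finset.mem_filter.1 (Finset.mem_sdiff.1 hj).1).2 _ hq
        · exact hSt j hj x hx
    · refine le_trans (Nat.le_add_right N ρ) (ha.2.1.trans (Finset.card_le_card ?_))
      intro j hj
      rw [Finset.mem_filter]
      refine ⟨Finset.mem_union_left _ hj, fun x hx => ?_⟩
      have h1 := (Finset.mem_filter.1 hj).2 q hq
      rcases Finset.mem_insert.1 hx with rfl | hx
      · exact h1
      · exact h1.trans (hqlt x hx)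
    · have h2 : N ≤ (L \ S).card := by
        rw [Finset.card_sdiff_of_subset hS]
        omega
      refine h2.trans (Finset.card_le_card ?_)
      intro j hj
      rw [Finset.mem_filter]
      refine ⟨Finset.mem_union_right _ hj, fun x hx => ?_⟩
      rcases Finset.mem_insert.1 hx with rfl | hx
      · exact (Finset.mem_filter.1 (Finset.mem_sdiff.1 hj).1).2 _ hq
      · exact hSt j hj x hx
    · left
      intro x hx
      rcases Finset.mem_insert.1 hx with rfl | hx
      · exact hlt
      · exact hlt.trans (hqlt x hx)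
  · -- `q < c`: use the left side
    set L := J.filter (fun j => ∀ x ∈ X, j < x) with hL
    have hLc : N + ρ ≤ L.card := by
      rw [hL]
      convert ha.2.1
    obtain ⟨S, hS, hSc, hSt⟩ := exists_top L ρ (by omega)
    have hqS : q ∉ S := fun h => lt_irrefl q ((Finset.mem_filter.1 (hS h)).2 q hq)
    have hqlt : ∀ y ∈ S, y < q := fun y hy => (Finset.mem_filter.1 (hS hy)).2 q hq
    refine ⟨insert q S, (L \ S) ∪ J.filter (fun j => ∀ x ∈ X, x < j), Finset.mem_insert_self _ _,
      ?_, ?_, by rw [Finset.card_insert_of_notMem hqS, hSc], ⟨?_, ?_, ?_⟩, ?_⟩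
    · exact Finset.insert_subset (Finset.mem_union_left _ hq)
        ((hS.trans (Finset.filter_subset _ _)).trans Finset.subset_union_right)
    · exact Finset.union_subset (Finset.sdiff_subset.trans (Finset.filter_subset _ _))
        (Finset.filter_subset _ _)
    · intro j hj
      rcases Finset.mem_union.1 hj with hj | hj
      · left
        intro x hx
        rcases Finset.mem_insert.1 hx with rfl | hx
        · exact (Finset.mem_filter.1 (Finset.mem_sdiff.1 hj).1).2 _ hq
        · exact hSt j hj x hx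
      · right
        intro x hx
        have h1 := (Finset.mem_filter.1 hj).2 q hq
        rcases Finset.mem_insert.1 hx with rfl | hx
        · exact h1
        · exact (hqlt x hx).trans h1
    · have h2 : N ≤ (L \ S).card := by
        rw [Finset.card_sdiff_of_subset hS]
        omega
      refine h2.trans (Finset.card_le_card ?_)
      intro j hj
      rw [Finset.mem_filter]
      refine ⟨Finset.mem_union_left _ hj, fun x hx => ?_⟩
      rcases Finset.mem_insert.1 hx with rfl | hx
      · exact (Finset.mem_filter.1 (Finset.mem_sdiff.1 hj).1).2 _ hq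
      · exact hSt j hj x hx
    · refine le_trans (Nat.le_add_right N ρ) (ha.2.2.trans (Finset.card_le_card ?_))
      intro j hj
      rw [Finset.mem_filter]
      refine ⟨Finset.mem_union_right _ hj, fun x hx => ?_⟩
      have h1 := (Finset.mem_filter.1 hj).2 q hq
      rcases Finset.mem_insert.1 hx with rfl | hx
      · exact h1
      · exact (hqlt x hx).trans h1
    · right
      intro x hx
      rcases Finset.mem_insert.1 hx with rfl | hx
      · exact hlt
      · exact (hqlt x hx).trans hlt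

variable {W : World} {ρ N : ℕ}

/-- Small sets carry no relation. -/
theorem Rel_small (h : TwoRank W ρ N) {T X J : Finset ℚ} (hX : X ⊆ T) (hJ : J ⊆ T)
    (hc : X.card ≤ ρ) (ha : Around N X J) {l : Vx → W.Ω} (hl : l ∈ Rel W T X J) : l = 0 := by
  have h1 := finrank_Rel h hX hJ (by omega) ha
  have h2 : finrank W.Ω (Rel W T X J) = 0 := by rw [h1]; omega
  rwa [Submodule.finrank_eq_zero.1 h2, Submodule.mem_bot] at hl

/-- Step A: a world and the world with one more element absorbed. -/
theorem cross_erase (h : TwoRank W ρ N) {T X X' J J' : Finset ℚ} {c q : ℚ} (hcT : c ∈ T)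
    (hX : X ⊆ T) (hJ : J ⊆ T) (hX' : X' ⊆ T.erase c) (hJ' : J' ⊆ T.erase c)
    (hc : X.card ≤ 2 * ρ + 4) (hc' : X'.card ≤ 2 * ρ + 4) (ha : Around (N + ρ) X J)
    (ha' : Around (N + ρ) X' J') (hq : q ∈ X) (hq' : q ∈ X') {l l' : Vx → W.Ω}
    (hl : l ∈ Rel W T X J) (hl' : l' ∈ Rel W (T.erase c) X' J') :
    l (q, false) * l' (q, true) = l (q, true) * l' (q, false) := by
  have hcq : c ≠ q := fun hh => by
    have := hX' hq'
    rw [← hh, Finset.mem_erase] at this
    exact this.1 rfl
  obtain ⟨Y, K, hqY, hY, hK, hYc, haY, hoY⟩ := exists_side hq' hcq ha'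
  have hYT' : Y ⊆ T.erase c := hY.trans (Finset.union_subset hX' hJ')
  have hKT' : K ⊆ T.erase c := hK.trans hJ'
  have hYT : Y ⊆ T := hYT'.trans (Finset.erase_subset _ _)
  have hKT : K ⊆ T := hKT'.trans (Finset.erase_subset _ _)
  obtain ⟨m, hm, hm0⟩ := exists_Rel h hYT hKT hYc haY
  have hm' : m ∈ Rel W (T.erase c) Y K :=
    Rel_erase h hcT hYT' hKT' (by omega) haY hoY hm
  have h1 := Rel_cross h hX hJ hYT hKT
    (le_trans (Finset.card_union_le _ _) (by omega)) (ha.mono (Nat.le_add_right _ _)) haY hq hl hm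
  have h2 := Rel_cross h hX' hJ' hYT' hKT'
    (le_trans (Finset.card_union_le _ _) (by omega)) (ha'.mono (Nat.le_add_right _ _)) haY
    hq' hl' hm'
  exact prop_trans h1 h2 (Rel_comp_ne h hYT hKT hYc haY hm hm0 hqY)

/-- A subset of size `ρ + 1` containing a given element. -/
theorem exists_sub {X : Finset ℚ} {q : ℚ} (hq : q ∈ X) {k : ℕ} (hk : k + 1 ≤ X.card) :
    ∃ Y ⊆ X, q ∈ Y ∧ Y.card = k + 1 := by
  obtain ⟨Y, hY, hY', hc⟩ := Finset.exists_subsuperset_card_eq
    (Finset.singleton_subset_iff.2 hq) (n := k + 1) (by simp) hk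
  exact ⟨Y, hY', Finset.singleton_subset_iff.1 hY, hc⟩

/-- Step B: nested worlds. -/
theorem cross_nested (h : TwoRank W ρ N) {T' X' J' : Finset ℚ} {q : ℚ}
    (hX' : X' ⊆ T') (hJ' : J' ⊆ T') (hc' : X'.card ≤ 2 * ρ + 4)
    (ha' : Around (N + ρ) X' J') (hq' : q ∈ X') {l' : Vx → W.Ω}
    (hl' : l' ∈ Rel W T' X' J') (n : ℕ) : ∀ (T X J : Finset ℚ) (l : Vx → W.Ω), T' ⊆ T →
      (T \ T').card = n → X ⊆ T → J ⊆ T → X.card ≤ 2 * ρ + 4 → Around (N + ρ) X J → q ∈ X →
      l ∈ Rel W T X J → l (q, false) * l' (q, true) = l (q, true) * l' (q, false) := by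
  by_cases hsm : X'.card ≤ ρ
  · have h0 := Rel_small h hX' hJ' hsm (ha'.mono (Nat.le_add_right _ _)) hl'
    intro T X J l _ _ _ _ _ _ _ _
    rw [h0]
    simp
  obtain ⟨Y, hY, hqY, hYc⟩ := exists_sub hq' (k := ρ) (by omega)
  induction n with
  | zero =>
    intro T X J l hTT hn hX hJ hXc haX hqX hl
    have hT : T = T' := by
      rw [Finset.card_eq_zero, Finset.sdiff_eq_empty_iff_subset] at hn
      exact Finset.Subset.antisymm hn hTT
    subst hT
    exact Rel_cross h hX hJ hX' hJ' (le_trans (Finset.card_union_le _ _) (by omega))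
      (haX.mono (Nat.le_add_right _ _)) (ha'.mono (Nat.le_add_right _ _)) hqX hl hl'
  | succ n ih =>
    intro T X J l hTT hn hX hJ hXc haX hqX hl
    have hne : (T \ T').Nonempty := by rw [← Finset.card_pos]; omega
    obtain ⟨c, hc0⟩ := hne
    rw [Finset.mem_sdiff] at hc0
    have hT1 : T' ⊆ T.erase c := fun x hx =>
      Finset.mem_erase.2 ⟨fun hxc => hc0.2 (hxc ▸ hx), hTT hx⟩
    have hn1 : ((T.erase c) \ T').card = n := by
      have : (T.erase c) \ T' = (T \ T').erase c := by
        ext x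
        simp only [Finset.mem_sdiff, Finset.mem_erase]
        tauto
      rw [this, Finset.card_erase_of_mem (Finset.mem_sdiff.2 hc0), hn]
      rfl
    have hYT1 : Y ⊆ T.erase c := hY.trans (hX'.trans hT1)
    have hJT1 : J' ⊆ T.erase c := hJ'.trans hT1
    obtain ⟨m, hm, hm0⟩ := exists_Rel h hYT1 hJT1 hYc
      ((ha'.anti hY).mono (Nat.le_add_right _ _))
    have h1 := ih (T.erase c) Y J' m hT1 hn1 hYT1 hJT1 (by omega) (ha'.anti hY) hqY hm
    have h2 := cross_erase h hc0.1 hX hJ hYT1 hJT1 hXc (by omega) haX (ha'.anti hY) hqX hqY hl hm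
    have h3 := Rel_comp_ne h hYT1 hJT1 hYc ((ha'.anti hY).mono (Nat.le_add_right _ _)) hm hm0 hqY
    refine prop_trans h2 ?_ h3
    rw [mul_comm, ← h1, mul_comm]

/-- Step C: arbitrary worlds. -/
theorem cross_all (h : TwoRank W ρ N) {T T' X X' J J' : Finset ℚ} {q : ℚ}
    (hX : X ⊆ T) (hJ : J ⊆ T) (hX' : X' ⊆ T') (hJ' : J' ⊆ T')
    (hc : X.card ≤ 2 * ρ + 4) (hc' : X'.card ≤ 2 * ρ + 4) (ha : Around (N + ρ) X J)
    (ha' : Around (N + ρ) X' J') (hq : q ∈ X) (hq' : q ∈ X') {l l' : Vx → W.Ω}
    (hl : l ∈ Rel W T X J) (hl' : l' ∈ Rel W T' X' J') :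
    l (q, false) * l' (q, true) = l (q, true) * l' (q, false) := by
  by_cases hsm : X'.card ≤ ρ
  · have h0 := Rel_small h hX' hJ' hsm (ha'.mono (Nat.le_add_right _ _)) hl'
    rw [h0]
    simp
  obtain ⟨Y, hY, hqY, hYc⟩ := exists_sub hq' (k := ρ) (by omega)
  have hYT : Y ⊆ T ∪ T' := (hY.trans hX').trans Finset.subset_union_right
  have hJT : J' ⊆ T ∪ T' := hJ'.trans Finset.subset_union_right
  obtain ⟨m, hm, hm0⟩ := exists_Rel h hYT hJT hYc ((ha'.anti hY).mono (Nat.le_add_right _ _))
  have h3 := Rel_comp_ne h hYT hJT hYc ((ha'.anti hY).mono (Nat.le_add_right _ _)) hm hm0 hqY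
  have h1 := cross_nested h hX hJ hc ha hq hl _ (T ∪ T') Y J' m
    Finset.subset_union_left rfl hYT hJT (by omega) (ha'.anti hY) hqY hm
  have h2 := cross_nested h hX' hJ' hc' ha' hq' hl' _ (T ∪ T') Y J' m
    Finset.subset_union_right rfl hYT hJT (by omega) (ha'.anti hY) hqY hm
  refine prop_trans (c := m (q, false)) (d := m (q, true)) ?_ ?_ h3
  · rw [mul_comm, ← h1, mul_comm]
  · rw [mul_comm, ← h2, mul_comm]

end Pool.Agent.Lib.MP_0c183c_co_P9S7
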