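import Mathlib

/-!
# Specialisation of relations at `t = 0`

`R` a domain inside a field `K`, `t ∈ K` transcendental over `R`. A relation over `K` between the
rows of `A0 + t D` (entries in `R`) gives a relation `g` with coefficients in `R[X]`, not all
divisible by `X`; its constant term is a relation between the rows of `A0`.
-/

set_option autoImplicit false

open Polynomial

namespace Pool.Agent.Lib.MP_0c183c_co_P9S7

theorem exists_int_relation {R K : Type*} [CommRing R] [IsDomain R] [Field K] [Algebra R K]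
    [FaithfulSMul R K] {α β : Type*} [Fintype α] [Finite β] (A : α → β → R) (v : α → K)
    (hv : v ≠ 0) (h : ∀ y, ∑ x, v x * algebraMap R K (A x y) = 0) :
    ∃ u : α → R, u ≠ 0 ∧ ∀ y, ∑ x, u x * A x y = 0 := by
  have h1 : ¬ LinearIndependent K (fun x => algebraMap R K ∘ A x) := by
    rw [Fintype.not_linearIndependent_iff]
    obtain ⟨x, hx⟩ := Function.ne_iff.1 hv
    refine ⟨v, ?_, x, hx⟩
    funext y
    rw [Finset.sum_apply]
    simpa using h y
  rw [linearIndependent_algebraMap_comp_iff, Fintype.not_linearIndependent_iff] at h1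
  obtain ⟨u, hu, x, hx⟩ := h1
  refine ⟨u, fun h0 => hx (congrFun h0 x), fun y => ?_⟩
  have h2 := congrFun hu y
  rw [Finset.sum_apply] at h2
  simpa using h2

theorem specialise {R K : Type*} [CommRing R] [IsDomain R] [Field K] [Algebra R K]
    [FaithfulSMul R K] {α β : Type*} [Fintype α] [Finite β] (A0 D : α → β → R) {t : K}
    (ht : Transcendental R t) (v : α → K) (hv : v ≠ 0)
    (h : ∀ y, ∑ x, v x * (algebraMap R K (A0 x y) + t * algebraMap R K (D x y)) = 0) :
    ∃ g : α → Polynomial R, (∃ x, (g x).coeff 0 ≠ 0) ∧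
      (∀ y, ∑ x, g x * (Polynomial.C (A0 x y) + Polynomial.X * Polynomial.C (D x y)) = 0) := by
  classical
  have hinj : Function.Injective (aeval t : R[X] →ₐ[R] K) := transcendental_iff_injective.1 ht
  let _ : Algebra R[X] K := (aeval t : R[X] →ₐ[R] K).toRingHom.toAlgebra
  have hmap : ∀ p : R[X], algebraMap R[X] K p = aeval t p := fun p => rfl
  have : FaithfulSMul R[X] K :=
    (faithfulSMul_iff_algebraMap_injective _ _).2 fun p q hpq => hinj hpq
  obtain ⟨u, hu0, hu⟩ := exists_int_relation (R := R[X]) (K := K)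
    (fun x y => C (A0 x y) + X * C (D x y)) v hv (by
      intro y
      rw [← h y]
      refine Finset.sum_congr rfl fun x _ => ?_
      rw [hmap, map_add, map_mul, aeval_C, aeval_X, aeval_C])
  have hex : ∃ k, ∃ x, (u x).coeff k ≠ 0 := by
    obtain ⟨x, hx⟩ := Function.ne_iff.1 hu0
    by_contra hcon
    push Not at hcon
    exact hx (Polynomial.ext fun k => by rw [hcon k x]; rfl)
  obtain ⟨x0, hx0⟩ := Nat.find_spec hex
  set k := Nat.find hex with hk
  have hdvd : ∀ x, X ^ k ∣ u x := by
    intro x
    rw [X_pow_dvd_iff]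
    intro d hd
    have h1 := Nat.find_min hex hd
    push Not at h1
    exact h1 x
  choose g hg using hdvd
  refine ⟨g, ⟨x0, ?_⟩, fun y => ?_⟩
  · have h1 : (u x0).coeff k = (g x0).coeff 0 := by
      rw [hg x0, coeff_X_pow_mul', if_pos le_rfl, Nat.sub_self]
    rwa [h1] at hx0
  · have h1 : X ^ k * ∑ x, g x * (C (A0 x y) + X * C (D x y)) = 0 := by
      rw [← hu y, Finset.mul_sum]
      refine Finset.sum_congr rfl fun x _ => ?_
      rw [hg x, mul_assoc]
    exact (mul_eq_zero.1 h1).resolve_left (pow_ne_zero _ X_ne_zero)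

/-- The constant terms are a relation between the rows of `A0`. -/
theorem spec0 {R : Type*} [CommRing R] {α β : Type*} [Fintype α] {A0 D : α → β → R}
    {g : α → Polynomial R}
    (hg : ∀ y, ∑ x, g x * (Polynomial.C (A0 x y) + Polynomial.X * Polynomial.C (D x y)) = 0)
    (y : β) : ∑ x, (g x).coeff 0 * A0 x y = 0 := by
  have h1 := congrArg (fun p : R[X] => p.coeff 0) (hg y)
  simp only [finsetSum_coeff, coeff_zero] at h1
  rw [← h1]
  refine Finset.sum_congr rfl fun x _ => ?_
  rw [mul_coeff_zero, coeff_add, coeff_C_zero, mul_coeff_zero, coeff_X_zero, zero_mul, add_zero]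

/-- The values at `t` are a relation between the rows of `A0 + t D`. -/
theorem spec_t {R K : Type*} [CommRing R] [Field K] [Algebra R K] {α β : Type*} [Fintype α]
    {A0 D : α → β → R} {g : α → Polynomial R} (t : K)
    (hg : ∀ y, ∑ x, g x * (Polynomial.C (A0 x y) + Polynomial.X * Polynomial.C (D x y)) = 0)
    (y : β) :
    ∑ x, aeval t (g x) * (algebraMap R K (A0 x y) + t * algebraMap R K (D x y)) = 0 := by
  have h1 := congrArg (fun p : R[X] => aeval t p) (hg y)
  simp only [map_sum, map_zero] at h1
  rw [← h1]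
  refine Finset.sum_congr rfl fun x _ => ?_
  rw [map_mul, map_add, map_mul, aeval_C, aeval_X, aeval_C]

theorem spec_t_ne {R K : Type*} [CommRing R] [Field K] [Algebra R K] {α : Type*}
    {g : α → Polynomial R} {t : K} (ht : Transcendental R t) (hg : ∃ x, (g x).coeff 0 ≠ 0) :
    (fun x => aeval t (g x)) ≠ 0 := by
  obtain ⟨x, hx⟩ := hg
  intro h0
  have h1 : aeval t (g x) = 0 := congrFun h0 x
  have h2 : g x = 0 := (transcendental_iff.1 ht) _ h1
  rw [h2, coeff_zero] at hx
  exact hx rfl

/-- A linear form over `R` which kills the relation at `t` kills its constant term. -/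
theorem spec_e {R K : Type*} [CommRing R] [Field K] [Algebra R K] {α : Type*} [Fintype α]
    {g : α → Polynomial R} {t : K} (ht : Transcendental R t) (e : α → R)
    (h : ∑ x, aeval t (g x) * algebraMap R K (e x) = 0) :
    ∑ x, (g x).coeff 0 * e x = 0 := by
  have h1 : aeval t (∑ x, g x * C (e x)) = 0 := by
    rw [map_sum, ← h]
    refine Finset.sum_congr rfl fun x _ => ?_
    rw [map_mul, aeval_C]
  have h2 : ∑ x, g x * C (e x) = 0 := (transcendental_iff.1 ht) _ h1
  have h3 := congrArg (fun p : R[X] => p.coeff 0) h2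
  simp only [finsetSum_coeff, coeff_zero] at h3
  rw [← h3]
  refine Finset.sum_congr rfl fun x _ => ?_
  rw [mul_coeff_zero, coeff_C_zero]

end Pool.Agent.Lib.MP_0c183c_co_P9S7
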