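import Pool.Agent.Lib.MP_0c183c_co_P9S7.Lines
import Pool.Agent.Lib.MP_0c183c_co_P9S7.Spec

set_option autoImplicit false
set_option linter.unusedSectionVars false

/-!
# The fact (S) and the transfer of off-pairings
-/

namespace Pool.Agent.Lib.MP_0c183c_co_P9S7

open Module Pool.Agent.Lib.P9RankMat Pool.Agent.Lib.MP_0c183c_co_P9W

variable {W : World} {ρ N : ℕ}

theorem two_eq_zero (W : World) : (2 : W.Ω) = 0 := by
  have h1 : (2 : ZMod 2) = 0 := by decide
  have h2 := congrArg (algebraMap (ZMod 2) W.Ω) h1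
  rwa [map_ofNat, map_zero] at h2

theorem add_self (a : W.Ω) : a + a = 0 := by
  have := two_eq_zero W
  calc a + a = 2 * a := by ring
    _ = 0 := by rw [this, zero_mul]

/-- The pairing of a relation with a vertex. -/
def pr (W : World) (T X : Finset ℚ) (κ : Vx → W.Ω) (y : Vx) : W.Ω :=
  ∑ x ∈ VV X, κ x * W.P T x y

theorem pr_add (T X : Finset ℚ) (κ μ : Vx → W.Ω) (y : Vx) :
    pr W T X (κ + μ) y = pr W T X κ y + pr W T X μ y := by
  simp [pr, add_mul, Finset.sum_add_distrib]

theorem pr_smul (T X : Finset ℚ) (c : W.Ω) (κ : Vx → W.Ω) (y : Vx) :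
    pr W T X (c • κ) y = c * pr W T X κ y := by
  simp [pr, mul_assoc, Finset.mul_sum]

theorem pr_sub (T X : Finset ℚ) (κ μ : Vx → W.Ω) (y : Vx) :
    pr W T X (κ - μ) y = pr W T X κ y - pr W T X μ y := by
  simp [pr, sub_mul, Finset.sum_sub_distrib]

theorem pr_mono (T : Finset ℚ) {X X' : Finset ℚ} (h : X ⊆ X') {κ : Vx → W.Ω}
    (hκ : ∀ x, x ∉ VV X → κ x = 0) (y : Vx) : pr W T X' κ y = pr W T X κ y := by
  unfold pr
  refine (Finset.sum_subset (VV_mono h) fun x _ hx => ?_).symm
  rw [hκ x hx, zero_mul]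

/-- A relation in `T.erase b` gives a relation in `T` on `insert b X`. -/
theorem lift_erase {T X J : Finset ℚ} {b : ℚ} (hX : X ⊆ T.erase b) (hJ : J ⊆ T.erase b)
    {t : W.Ω} (ht : ∀ x y : Vx, x.1 ∈ T.erase b → y.1 ∈ T.erase b →
      W.P (T.erase b) x y = absorb (W.P T) b t x y) {κ : Vx → W.Ω}
    (hκ : κ ∈ Rel W (T.erase b) X J) :
    (fun x : Vx => κ x + if x.1 = b then t * pr W T X κ (b, !x.2) else 0) ∈
      Rel W T (insert b X) J := by
  have hbX : b ∉ X := fun h => (Finset.mem_erase.1 (hX h)).1 rfl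
  refine ⟨fun x hx => ?_, fun y hy => ?_⟩
  · rw [mem_VV, Finset.mem_insert, not_or] at hx
    change κ x + (if x.1 = b then t * pr W T X κ (b, !x.2) else 0) = 0
    rw [hκ.1 x (fun h => hx.2 (mem_VV.1 h)), if_neg hx.1, add_zero]
  · have hV : VV (insert b X) = {(b, false), (b, true)} ∪ VV X := by
      ext ⟨p, a⟩
      rw [mem_VV, Finset.mem_insert, Finset.mem_union, mem_VV]
      cases a <;> simp
    have hdis : Disjoint ({(b, false), (b, true)} : Finset Vx) (VV X) := by
      rw [Finset.disjoint_left]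
      rintro ⟨p, a⟩ hx hx'
      rw [mem_VV] at hx'
      have : p = b := by
        rcases Finset.mem_insert.1 hx with h | h
        · exact congrArg Prod.fst h
        · exact congrArg Prod.fst (Finset.mem_singleton.1 h)
      exact hbX (this ▸ hx')
    rw [hV, Finset.sum_union hdis, Finset.sum_pair (by simp)]
    have hb0 : ∀ a, κ (b, a) = 0 := fun a => hκ.1 _ (fun h => hbX (mem_VV.1 h))
    have h1 : ∑ x ∈ VV X, (κ x + if x.1 = b then t * pr W T X κ (b, !x.2) else 0) * W.P T x y =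
        pr W T X κ y := by
      refine Finset.sum_congr rfl fun x hx => ?_
      have hxb : x.1 ≠ b := by
        rintro rfl
        exact hbX (mem_VV.1 hx)
      rw [if_neg hxb, add_zero]
    rw [h1]
    have h2 := hκ.2 y hy
    have h3 : ∑ x ∈ VV X, κ x * W.P (T.erase b) x y = pr W T X κ y +
        t * (pr W T X κ (b, false) * W.P T (b, true) y +
          pr W T X κ (b, true) * W.P T (b, false) y) := by
      unfold pr
      rw [Finset.sum_mul, Finset.sum_mul, ← Finset.sum_add_distrib, Finset.mul_sum,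
        ← Finset.sum_add_distrib]
      refine Finset.sum_congr rfl fun x hx => ?_
      rw [ht x y (hX (mem_VV.1 hx)) (hJ (mem_VV.1 hy)), absorb]
      ring
    rw [h3] at h2
    simp only [hb0, if_true, Bool.not_false, Bool.not_true, zero_add]
    rw [← h2]
    ring

/-- The pairing with the line at `b`: one world for the relation, the next for the pairing. -/
theorem pair_erase (h : TwoRank W ρ N) {T X J Xb Jb : Finset ℚ} {b : ℚ} (hbT : b ∈ T)
    (hX : X ⊆ T.erase b) (hJ : J ⊆ T.erase b) (hc : X.card + 1 ≤ 2 * ρ + 4)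
    (ha : Around (N + ρ) (insert b X) J) (hXb : Xb ⊆ T) (hJb : Jb ⊆ T)
    (hcb : Xb.card ≤ 2 * ρ + 4) (hab : Around (N + ρ) Xb Jb) (hb : b ∈ Xb)
    {t : W.Ω} (ht0 : t ≠ 0) (ht : ∀ x y : Vx, x.1 ∈ T.erase b → y.1 ∈ T.erase b →
      W.P (T.erase b) x y = absorb (W.P T) b t x y) {κ l : Vx → W.Ω}
    (hκ : κ ∈ Rel W (T.erase b) X J) (hl : l ∈ Rel W T Xb Jb) :
    pr W T X κ (b, false) * l (b, false) + pr W T X κ (b, true) * l (b, true) = 0 := by
  have hbX : b ∉ X := fun h => (Finset.mem_erase.1 (hX h)).1 rfl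
  have hb0 : ∀ a, κ (b, a) = 0 := fun a => hκ.1 _ (fun h => hbX (mem_VV.1 h))
  have h1 := lift_erase hX hJ ht hκ
  have h2 := cross_all h (Finset.insert_subset hbT (hX.trans (Finset.erase_subset _ _)))
    (hJ.trans (Finset.erase_subset _ _)) hXb hJb
    (by rw [Finset.card_insert_of_notMem hbX]; exact hc) hcb ha hab
    (Finset.mem_insert_self b X) hb h1 hl
  simp only [hb0, if_true, Bool.not_false, Bool.not_true, zero_add] at h2
  have h3 : t * (pr W T X κ (b, false) * l (b, false) + pr W T X κ (b, true) * l (b, true)) =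
      0 := by
    have : t * (pr W T X κ (b, false) * l (b, false) + pr W T X κ (b, true) * l (b, true)) =
      (t * pr W T X κ (b, false) * l (b, false)) + (t * pr W T X κ (b, true) * l (b, true)) := by
      ring
    rw [this, h2]
    exact add_self _
  exact (mul_eq_zero.1 h3).resolve_left ht0

/-- The coefficient ring of the world `T`. -/
abbrev RT (W : World) (T : Finset ℚ) : Subalgebra (ZMod 2) W.Ω :=
  Algebra.adjoin (ZMod 2) (entries T (W.P T))

theorem P_mem {T : Finset ℚ} {x y : Vx} (hx : x.1 ∈ T) (hy : y.1 ∈ T) : W.P T x y ∈ RT W T :=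
  Algebra.subset_adjoin ⟨x, y, hx, hy, rfl⟩

/-- Extension of a vector by zero. -/
def ext0 {R K : Type*} [CommRing R] [Field K] [Algebra R K] (X : Finset ℚ)
    (u : VV X → R) : Vx → K := fun x => if h : x ∈ VV X then algebraMap R K (u ⟨x, h⟩) else 0

theorem ext0_off {R K : Type*} [CommRing R] [Field K] [Algebra R K] (X : Finset ℚ)
    (u : VV X → R) {x : Vx} (hx : x ∉ VV X) : (ext0 X u : Vx → K) x = 0 := by
  simp [ext0, hx]

theorem sum_ext0 {R K : Type*} [CommRing R] [Field K] [Algebra R K] (X : Finset ℚ)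
    (u : VV X → R) (f : Vx → K) :
    ∑ x ∈ VV X, (ext0 X u : Vx → K) x * f x = ∑ x : VV X, algebraMap R K (u x) * f x := by
  rw [← Finset.sum_coe_sort]
  refine Finset.sum_congr rfl fun x _ => ?_
  simp [ext0]

/-- An integral minimal relation. -/
theorem exists_int (h : TwoRank W ρ N) {T X J : Finset ℚ} (hX : X ⊆ T) (hJ : J ⊆ T)
    (hc : X.card = ρ + 1) (ha : Around N X J) :
    ∃ u : VV X → RT W T, (ext0 X u : Vx → W.Ω) ≠ 0 ∧ (ext0 X u : Vx → W.Ω) ∈ Rel W T X J := by
  obtain ⟨l, hl, hl0⟩ := exists_Rel h hX hJ hc ha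
  have hv : (fun x : VV X => l x) ≠ 0 := by
    intro h0
    apply hl0
    funext x
    by_cases hx : x ∈ VV X
    · exact congrFun h0 ⟨x, hx⟩
    · exact hl.1 x hx
  obtain ⟨u, hu, hur⟩ := exists_int_relation (R := RT W T) (K := W.Ω)
    (fun (x : VV X) (y : VV J) => (⟨W.P T x y, P_mem (hX (mem_VV.1 x.2)) (hJ (mem_VV.1 y.2))⟩ :
      RT W T)) (fun x : VV X => l x) hv (by
    intro y
    have := hl.2 y y.2
    rw [← Finset.sum_coe_sort] at this
    exact this)
  refine ⟨u, ?_, ⟨fun x hx => ext0_off X u hx, fun y hy => ?_⟩⟩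
  · intro h0
    apply hu
    funext x
    have h1 := congrFun h0 x.1
    simp only [ext0, x.2, dif_pos, Pi.zero_apply] at h1
    exact Subtype.ext h1
  · rw [sum_ext0]
    have := hur ⟨y, hy⟩
    have h2 := congrArg (algebraMap (RT W T) W.Ω) this
    rw [map_sum, map_zero] at h2
    rw [← h2]
    exact Finset.sum_congr rfl fun x _ => by rw [map_mul]; rfl

/-- (S) for minimal relations. -/
theorem S_min (h : TwoRank W ρ N) {T X J : Finset ℚ} {b : ℚ} (hbT : b ∈ T)
    (hX : X ⊆ T.erase b) (hJ : J ⊆ T.erase b) (hc : X.card = ρ + 1)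
    (ha : Around (N + ρ) (insert b X) J) {κ : Vx → W.Ω} (hκ : κ ∈ Rel W T X J)
    {Xb Jb : Finset ℚ} (hXb : Xb ⊆ T) (hJb : Jb ⊆ T)
    (hcb : Xb.card ≤ 2 * ρ + 4) (hab : Around (N + ρ) Xb Jb) (hb : b ∈ Xb) {l : Vx → W.Ω}
    (hl : l ∈ Rel W T Xb Jb) :
    pr W T X κ (b, false) * l (b, false) + pr W T X κ (b, true) * l (b, true) = 0 := by
  classical
  have hbX : b ∉ X := fun h => (Finset.mem_erase.1 (hX h)).1 rfl
  have hXT : X ⊆ T := hX.trans (Finset.erase_subset _ _)
  have hJT : J ⊆ T := hJ.trans (Finset.erase_subset _ _)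
  have haX : Around N X J := (ha.anti (Finset.subset_insert _ _)).mono (Nat.le_add_right _ _)
  obtain ⟨t, htg, ht⟩ := W.abs T b hbT
  have ht0 : t ≠ 0 := by
    rintro rfl
    exact htg (isAlgebraic_zero)
  -- an integral minimal relation through `b`
  obtain ⟨Y, hY, hbY, hYc⟩ := exists_sub (Finset.mem_insert_self b X) (k := ρ)
    (by rw [Finset.card_insert_of_notMem hbX]; omega)
  have hYT : Y ⊆ T := hY.trans (Finset.insert_subset hbT hXT)
  have haY : Around N Y J := (ha.anti hY).mono (Nat.le_add_right _ _)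
  obtain ⟨u, hu0, hu⟩ := exists_int h hYT hJT hYc haY
  have hune := Rel_comp_ne h hYT hJT hYc haY hu hu0 hbY
  -- the relation over `T.erase b`
  obtain ⟨v, hv, hv0⟩ := exists_Rel h (T := T.erase b) hX hJ hc haX
  have hv' : (fun x : VV X => v x) ≠ 0 := by
    intro h0
    apply hv0
    funext x
    by_cases hx : x ∈ VV X
    · exact congrFun h0 ⟨x, hx⟩
    · exact hv.1 x hx
  let A0 : VV X → VV J → RT W T := fun x y =>
    ⟨W.P T x y, P_mem (hXT (mem_VV.1 x.2)) (hJT (mem_VV.1 y.2))⟩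
  let D : VV X → VV J → RT W T := fun x y =>
    ⟨W.P T x (b, false) * W.P T (b, true) y + W.P T x (b, true) * W.P T (b, false) y,
      add_mem (mul_mem (P_mem (hXT (mem_VV.1 x.2)) hbT) (P_mem hbT (hJT (mem_VV.1 y.2))))
        (mul_mem (P_mem (hXT (mem_VV.1 x.2)) hbT) (P_mem hbT (hJT (mem_VV.1 y.2))))⟩
  have hAD : ∀ (x : VV X) (y : VV J), W.P (T.erase b) x y =
      algebraMap (RT W T) W.Ω (A0 x y) + t * algebraMap (RT W T) W.Ω (D x y) := by
    intro x y
    rw [ht x y (hX (mem_VV.1 x.2)) (hJ (mem_VV.1 y.2)), absorb]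
    rfl
  obtain ⟨g, ⟨x0, hg0⟩, hg⟩ := specialise (R := RT W T) (K := W.Ω) A0 D htg
    (fun x : VV X => v x) hv' (by
      intro y
      have := hv.2 y y.2
      rw [← Finset.sum_coe_sort] at this
      rw [← this]
      exact Finset.sum_congr rfl fun x _ => by rw [hAD x y])
  -- evaluation at `t`
  let κ1 : Vx → W.Ω := fun x => if hx : x ∈ VV X then Polynomial.aeval t (g ⟨x, hx⟩) else 0
  have hκ1s : ∀ f : Vx → W.Ω, ∑ x ∈ VV X, κ1 x * f x =
      ∑ x : VV X, Polynomial.aeval t (g x) * f x := by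
    intro f
    rw [← Finset.sum_coe_sort]
    refine Finset.sum_congr rfl fun x _ => ?_
    simp [κ1]
  have hκ1 : κ1 ∈ Rel W (T.erase b) X J := by
    refine ⟨fun x hx => by simp [κ1, hx], fun y hy => ?_⟩
    rw [hκ1s, ← spec_t (K := W.Ω) t hg ⟨y, hy⟩]
    exact Finset.sum_congr rfl fun x _ => by rw [hAD x ⟨y, hy⟩]
  have h1 := pair_erase h hbT hX hJ (by omega) ha hYT hJT (by omega) (ha.anti hY) hbY ht0 ht
    hκ1 hu
  -- specialise the pairing
  let e : VV X → RT W T := fun x =>
    (⟨W.P T x (b, false), P_mem (hXT (mem_VV.1 x.2)) hbT⟩ : RT W T) *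
        u ⟨(b, false), mem_VV.2 hbY⟩ +
      (⟨W.P T x (b, true), P_mem (hXT (mem_VV.1 x.2)) hbT⟩ : RT W T) *
        u ⟨(b, true), mem_VV.2 hbY⟩
  have hue : ∀ a : Bool, (ext0 Y u : Vx → W.Ω) (b, a) =
      algebraMap (RT W T) W.Ω (u ⟨(b, a), mem_VV.2 hbY⟩) := by
    intro a
    have : (b, a) ∈ VV Y := mem_VV.2 hbY
    simp [ext0, this]
  have h2 : ∑ x, (g x).coeff 0 * e x = 0 := by
    refine spec_e (K := W.Ω) htg e ?_
    rw [← h1]
    unfold pr
    rw [hκ1s, hκ1s, Finset.sum_mul, Finset.sum_mul, ← Finset.sum_add_distrib]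
    refine Finset.sum_congr rfl fun x _ => ?_
    rw [hue, hue, map_add, map_mul, map_mul]
    change _ * (W.P T x (b, false) * _ + W.P T x (b, true) * _) = _
    ring
  -- the specialised relation
  let κ0 : Vx → W.Ω := ext0 X (fun x => (g x).coeff 0)
  have hκ0 : κ0 ∈ Rel W T X J := by
    refine ⟨fun x hx => ext0_off X _ hx, fun y hy => ?_⟩
    have h3 := spec0 hg ⟨y, hy⟩
    have h4 := congrArg (algebraMap (RT W T) W.Ω) h3
    rw [map_sum, map_zero] at h4
    rw [sum_ext0, ← h4]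
    exact Finset.sum_congr rfl fun x _ => by rw [map_mul]; rfl
  have hκ00 : κ0 ≠ 0 := by
    intro h0
    apply hg0
    have h3 := congrFun h0 x0.1
    simp only [κ0, ext0, x0.2, dif_pos, Pi.zero_apply] at h3
    exact Subtype.ext h3
  obtain ⟨c, rfl⟩ := Rel_unique h hXT hJT hc haX hκ hκ0 hκ00
  have h5 : pr W T X κ0 (b, false) * (ext0 Y u : Vx → W.Ω) (b, false) +
      pr W T X κ0 (b, true) * (ext0 Y u : Vx → W.Ω) (b, true) = 0 := by
    have h4 := congrArg (algebraMap (RT W T) W.Ω) h2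
    rw [map_sum, map_zero] at h4
    rw [← h4]
    unfold pr
    rw [sum_ext0, sum_ext0, Finset.sum_mul, Finset.sum_mul, ← Finset.sum_add_distrib]
    refine Finset.sum_congr rfl fun x _ => ?_
    rw [hue, hue, map_mul, map_add, map_mul, map_mul]
    change _ = _ * (W.P T x (b, false) * _ + W.P T x (b, true) * _)
    ring
  -- change the line vector
  have h6 := cross_all h hYT hJT hXb hJb (by omega) hcb (ha.anti hY) hab hbY hb hu hl
  rw [pr_smul, pr_smul]
  set p := pr W T X κ0 (b, false)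
  set p' := pr W T X κ0 (b, true)
  set s := (ext0 Y u : Vx → W.Ω) (b, false)
  set s' := (ext0 Y u : Vx → W.Ω) (b, true)
  rcases hune with hs | hs
  · have h7 : s * (c * p * l (b, false) + c * p' * l (b, true)) = 0 := by
      calc s * (c * p * l (b, false) + c * p' * l (b, true)) =
          c * p * s * l (b, false) + c * p' * (s * l (b, true)) := by ring
        _ = c * l (b, false) * (p * s + p' * s') := by rw [h6]; ring
        _ = 0 := by rw [h5, mul_zero]
    exact (mul_eq_zero.1 h7).resolve_left hs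
  · have h7 : s' * (c * p * l (b, false) + c * p' * l (b, true)) = 0 := by
      calc s' * (c * p * l (b, false) + c * p' * l (b, true)) =
          c * p * (s' * l (b, false)) + c * p' * s' * l (b, true) := by ring
        _ = c * l (b, true) * (p * s + p' * s') := by rw [← h6]; ring
        _ = 0 := by rw [h5, mul_zero]
    exact (mul_eq_zero.1 h7).resolve_left hs

end Pool.Agent.Lib.MP_0c183c_co_P9S7
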