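import Pool.Agent.Lib.MP_0c183c_co_P9S7.S

set_option autoImplicit false
set_option linter.unusedSectionVars false

/-!
# (S) for all relations, and the transfer of the off-pairings inside one world
-/

namespace Pool.Agent.Lib.MP_0c183c_co_P9S7

open Module Pool.Agent.Lib.P9RankMat Pool.Agent.Lib.MP_0c183c_co_P9W

variable {W : World} {ρ N : ℕ}

/-- A relation with vanishing component at `q` lives on `X.erase q`. -/
theorem Rel_erase_of_zero {T X J : Finset ℚ} {q : ℚ} {μ : Vx → W.Ω} (hμ : μ ∈ Rel W T X J)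
    (h0 : ∀ a, μ (q, a) = 0) : μ ∈ Rel W T (X.erase q) J := by
  refine mem_KerS_of_support (VV_mono (Finset.erase_subset q X)) hμ ?_
  rintro ⟨p, a⟩ hx hx'
  rw [mem_VV] at hx hx'
  have hp : p = q := by
    by_contra hpq
    exact hx' (Finset.mem_erase.2 ⟨hpq, hx⟩)
  subst hp
  exact h0 a

/-- (S): every relation pairs to zero with the line at an absorbed vertex. -/
theorem S_all (h : TwoRank W ρ N) {T J Xb Jb : Finset ℚ} {b : ℚ} (hbT : b ∈ T)
    (hJ : J ⊆ T.erase b) (hXb : Xb ⊆ T) (hJb : Jb ⊆ T)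
    (hcb : Xb.card ≤ 2 * ρ + 4) (hab : Around (N + ρ) Xb Jb) (hb : b ∈ Xb) {l : Vx → W.Ω}
    (hl : l ∈ Rel W T Xb Jb) (n : ℕ) : ∀ (X : Finset ℚ) (κ : Vx → W.Ω), X.card = n →
      n + 1 ≤ 2 * ρ + 4 → X ⊆ T.erase b → Around (N + ρ) (insert b X) J → κ ∈ Rel W T X J →
      pr W T X κ (b, false) * l (b, false) + pr W T X κ (b, true) * l (b, true) = 0 := by
  induction n with
  | zero =>
    intro X κ hX0 _ _ _ _
    rw [Finset.card_eq_zero] at hX0
    subst hX0
    simp [pr, VV]
  | succ n ih =>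
    intro X κ hXc hn hX ha hκ
    have hXT : X ⊆ T := hX.trans (Finset.erase_subset _ _)
    have hJT : J ⊆ T := hJ.trans (Finset.erase_subset _ _)
    have haX' : Around (N + ρ) X J := ha.anti (Finset.subset_insert _ _)
    have haX : Around N X J := haX'.mono (Nat.le_add_right _ _)
    rcases lt_trichotomy (n + 1) (ρ + 1) with hlt | heq | hgt
    · have h0 := Rel_small h hXT hJT (by omega) haX hκ
      rw [h0]
      simp [pr]
    · exact S_min h hbT hX hJ (by omega) ha hκ hXb hJb hcb hab hb hl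
    · have hne : X.Nonempty := by rw [← Finset.card_pos]; omega
      obtain ⟨q, hq⟩ := hne
      obtain ⟨Y, hY, hqY, hYc⟩ := exists_sub hq (k := ρ) (by omega)
      obtain ⟨m, hm, hm0⟩ := exists_Rel h (hY.trans hXT) hJT hYc (haX.anti hY)
      have hmq := Rel_comp_ne h (hY.trans hXT) hJT hYc (haX.anti hY) hm hm0 hqY
      have hcr := Rel_cross h hXT hJT (hY.trans hXT) hJT
        (by rw [Finset.union_eq_left.2 hY]; omega) haX (haX.anti hY) hq hκ hm
      have hmX : m ∈ Rel W T X J := KerS_mono_left _ (VV_mono hY) hm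
      obtain ⟨c, hc⟩ : ∃ c : W.Ω, ∀ a, (κ - c • m) (q, a) = 0 := by
        rcases hmq with h0 | h0
        · refine ⟨κ (q, false) / m (q, false), fun a => ?_⟩
          simp only [Pi.sub_apply, Pi.smul_apply, smul_eq_mul]
          cases a
          · field_simp
            ring
          · field_simp
            rw [mul_comm (m (q, false)), ← hcr]
            ring
        · refine ⟨κ (q, true) / m (q, true), fun a => ?_⟩
          simp only [Pi.sub_apply, Pi.smul_apply, smul_eq_mul]
          cases a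
          · field_simp
            rw [mul_comm (m (q, true)), hcr]
            ring
          · field_simp
            ring
      have hμ : κ - c • m ∈ Rel W T (X.erase q) J :=
        Rel_erase_of_zero (Submodule.sub_mem _ hκ (Submodule.smul_mem _ _ hmX)) hc
      have h1 := ih (X.erase q) (κ - c • m) (by rw [Finset.card_erase_of_mem hq]; omega)
        (by omega) ((Finset.erase_subset _ _).trans hX)
        (ha.anti (Finset.insert_subset_insert _ (Finset.erase_subset _ _))) hμ
      have h2 := S_min h hbT (hY.trans hX) hJ hYc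
        (ha.anti (Finset.insert_subset_insert _ hY)) hm hXb hJb hcb hab hb hl
      have h3 : ∀ y, pr W T X κ y = pr W T (X.erase q) (κ - c • m) y + c * pr W T Y m y := by
        intro y
        rw [← pr_mono T (Finset.erase_subset q X) hμ.1 y, ← pr_mono T hY hm.1 y, pr_sub,
          pr_smul]
        ring
      rw [h3, h3]
      calc _ = (pr W T (X.erase q) (κ - c • m) (b, false) * l (b, false) +
            pr W T (X.erase q) (κ - c • m) (b, true) * l (b, true)) +
            c * (pr W T Y m (b, false) * l (b, false) + pr W T Y m (b, true) * l (b, true)) := by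
              ring
        _ = 0 := by rw [h1, h2]; ring

/-- The off-pairing of a relation at `q`, evaluated at its own component. -/
def OffQ (W : World) (T X : Finset ℚ) (κ : Vx → W.Ω) (q : ℚ) : W.Ω :=
  ∑ a : Bool, (∑ x ∈ VV (X.erase q), κ x * W.P T x (q, a)) * κ (q, a)

/-- Vanishing of the off-pairing at `q` transfers between relations of one world. -/
def Transfer (W : World) (ρ N : ℕ) : Prop :=
  ∀ (T X X' J J' : Finset ℚ) (q : ℚ) (κ κ' : Vx → W.Ω), X ⊆ T → X' ⊆ T → J ⊆ T → J' ⊆ T →
    X.card = ρ + 1 → X'.card = ρ + 1 → Around N X J → Around N X' J' → q ∈ X → q ∈ X' →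
    κ ∈ Rel W T X J → κ' ∈ Rel W T X' J' → κ' ≠ 0 → OffQ W T X' κ' q = 0 → OffQ W T X κ q = 0

/-- The conclusion of 7b: the off-pairing vanishes at one element in all larger worlds. -/
def AZ (W : World) (ρ N : ℕ) : Prop :=
  ∃ (T0 Z0 J0 : Finset ℚ) (q0 : ℚ), Z0 ⊆ T0 ∧ J0 ⊆ T0 ∧ Z0.card = ρ + 1 ∧ q0 ∈ Z0 ∧
    Around N Z0 J0 ∧ ∀ T, T0 ⊆ T → ∀ κ ∈ Rel W T Z0 J0, OffQ W T Z0 κ q0 = 0

theorem OffQ_eq (T X : Finset ℚ) (κ : Vx → W.Ω) (q : ℚ) : OffQ W T X κ q =
    pr W T (X.erase q) κ (q, false) * κ (q, false) +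
      pr W T (X.erase q) κ (q, true) * κ (q, true) := by
  rw [OffQ, Fintype.sum_bool, add_comm]
  rfl

/-- Decomposition of the pairing of a vector supported on `Z` with `y`. -/
theorem pr_split (T : Finset ℚ) {Z : Finset ℚ} {q : ℚ} (hq : q ∈ Z) (κ : Vx → W.Ω) (y : Vx) :
    pr W T Z κ y = pr W T (Z.erase q) κ y +
      (κ (q, false) * W.P T (q, false) y + κ (q, true) * W.P T (q, true) y) := by
  have hV : VV Z = {(q, false), (q, true)} ∪ VV (Z.erase q) := by
    ext ⟨p, a⟩
    rw [mem_VV, Finset.mem_union, mem_VV, Finset.mem_erase]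
    by_cases hp : p = q
    · subst hp
      cases a <;> simp [hq]
    · cases a <;> simp [hp]
  have hdis : Disjoint ({(q, false), (q, true)} : Finset Vx) (VV (Z.erase q)) := by
    rw [Finset.disjoint_left]
    rintro ⟨p, a⟩ hx hx'
    rw [mem_VV] at hx'
    have : p = q := by
      rcases Finset.mem_insert.1 hx with h | h
      · exact congrArg Prod.fst h
      · exact congrArg Prod.fst (Finset.mem_singleton.1 h)
    exact (Finset.mem_erase.1 hx').1 this
  unfold pr
  rw [hV, Finset.sum_union hdis, Finset.sum_pair (by simp)]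
  ring

/-- (S) in the form: a relation with zero component at `q` pairs to zero with the line at `q`. -/
theorem off_zero (h : TwoRank W ρ N) {T Z K X' J' : Finset ℚ} {q : ℚ} (hZ : Z ⊆ T) (hK : K ⊆ T)
    (hc : Z.card ≤ 2 * ρ + 4) (ha : Around (N + ρ) Z K) (hq : q ∈ Z) (hX' : X' ⊆ T) (hJ' : J' ⊆ T)
    (hc' : X'.card ≤ 2 * ρ + 4) (ha' : Around (N + ρ) X' J') (hq' : q ∈ X') {μ l : Vx → W.Ω}
    (hμ : μ ∈ Rel W T Z K) (h0 : ∀ a, μ (q, a) = 0) (hl : l ∈ Rel W T X' J') :
    pr W T (Z.erase q) μ (q, false) * l (q, false) +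
      pr W T (Z.erase q) μ (q, true) * l (q, true) = 0 := by
  have hqK : q ∉ K := by
    intro hqK
    rcases ha.1 q hqK with h1 | h1
    · exact lt_irrefl q (h1 q hq)
    · exact lt_irrefl q (h1 q hq)
  refine S_all h (hZ hq) (fun x hx => Finset.mem_erase.2 ⟨?_, hK hx⟩) hX' hJ' hc' ha' hq' hl
    (Z.erase q).card (Z.erase q) μ rfl ?_ (Finset.erase_subset_erase _ hZ) ?_
    (Rel_erase_of_zero hμ h0)
  · rintro rfl
    exact hqK hx
  · rw [Finset.card_erase_of_mem hq]
    have : 0 < Z.card := Finset.card_pos.2 ⟨q, hq⟩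
    omega
  · rw [Finset.insert_erase hq]
    exact ha

/-- The off-pairings with the line are proportional to the components. -/
theorem off_cross (h : TwoRank W ρ N) {T X X' J J' : Finset ℚ} {q : ℚ} (hX : X ⊆ T) (hX' : X' ⊆ T)
    (hJ : J ⊆ T) (hJ' : J' ⊆ T) (hc : (X ∪ X').card ≤ 2 * ρ + 4)
    (ha : Around (N + ρ) X J) (ha' : Around (N + ρ) X' J') (hq : q ∈ X) (hq' : q ∈ X')
    {κ κ' : Vx → W.Ω} (hκ : κ ∈ Rel W T X J) (hκ' : κ' ∈ Rel W T X' J')
    {Y K : Finset ℚ} (hY : Y ⊆ T) (hK : K ⊆ T) (hcY : Y.card ≤ 2 * ρ + 4)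
    (haY : Around (N + ρ) Y K) (hqY : q ∈ Y) {l : Vx → W.Ω} (hl : l ∈ Rel W T Y K) (c : Bool) :
    κ' (q, c) * (pr W T (X.erase q) κ (q, false) * l (q, false) +
      pr W T (X.erase q) κ (q, true) * l (q, true)) =
    κ (q, c) * (pr W T (X'.erase q) κ' (q, false) * l (q, false) +
      pr W T (X'.erase q) κ' (q, true) * l (q, true)) := by
  set Z := X ∪ X' with hZ
  set F := (J ∪ J').filter (fun j => Out Z j) with hF
  have hFT : F ⊆ T := (Finset.filter_subset _ _).trans (Finset.union_subset hJ hJ')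
  have hZT : Z ⊆ T := Finset.union_subset hX hX'
  have haZ : Around (N + ρ) Z F := ha.common ha'
  have hcX : X.card ≤ 2 * ρ + 4 := (Finset.card_le_card Finset.subset_union_left).trans hc
  have hcX' : X'.card ≤ 2 * ρ + 4 := (Finset.card_le_card Finset.subset_union_right).trans hc
  have h1 : κ ∈ Rel W T Z F := by
    refine KerS_mono_left _ (VV_mono Finset.subset_union_left) ?_
    exact Rel_extend h hX hJ hFT (by omega) (ha.mono (Nat.le_add_right _ _))
      (fun j hj => (haZ.1 j hj).anti Finset.subset_union_left) hκ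
  have h2 : κ' ∈ Rel W T Z F := by
    refine KerS_mono_left _ (VV_mono Finset.subset_union_right) ?_
    exact Rel_extend h hX' hJ' hFT (by omega) (ha'.mono (Nat.le_add_right _ _))
      (fun j hj => (haZ.1 j hj).anti Finset.subset_union_right) hκ'
  have hcr := cross_all h hX hJ hX' hJ' hcX hcX' ha ha' hq hq' hκ hκ'
  have hμ : κ' (q, c) • κ - κ (q, c) • κ' ∈ Rel W T Z F :=
    Submodule.sub_mem _ (Submodule.smul_mem _ _ h1) (Submodule.smul_mem _ _ h2)
  have hμ0 : ∀ a, (κ' (q, c) • κ - κ (q, c) • κ') (q, a) = 0 := by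
    intro a
    simp only [Pi.sub_apply, Pi.smul_apply, smul_eq_mul]
    cases c <;> cases a
    · ring
    · rw [mul_comm (κ' (q, false)), ← hcr]
      ring
    · rw [mul_comm (κ' (q, true)), hcr]
      ring
    · ring
  have h3 := off_zero h hZT hFT hc haZ (Finset.mem_union_left _ hq) hY hK hcY haY hqY hμ hμ0 hl
  have hX0 : ∀ y, pr W T (Z.erase q) κ y = pr W T (X.erase q) κ y := by
    intro y
    unfold pr
    refine (Finset.sum_subset (VV_mono (Finset.erase_subset_erase _ Finset.subset_union_left))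
      fun x hx hx' => ?_).symm
    rw [mem_VV, Finset.mem_erase] at hx hx'
    rw [hκ.1 x (fun hh => hx' ⟨hx.1, mem_VV.1 hh⟩), zero_mul]
  have hX0' : ∀ y, pr W T (Z.erase q) κ' y = pr W T (X'.erase q) κ' y := by
    intro y
    unfold pr
    refine (Finset.sum_subset (VV_mono (Finset.erase_subset_erase _ Finset.subset_union_right))
      fun x hx hx' => ?_).symm
    rw [mem_VV, Finset.mem_erase] at hx hx'
    rw [hκ'.1 x (fun hh => hx' ⟨hx.1, mem_VV.1 hh⟩), zero_mul]
  rw [pr_sub, pr_sub, pr_smul, pr_smul, pr_smul, pr_smul, hX0, hX0, hX0', hX0'] at h3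
  linear_combination h3

/-- Transfer holds under the rank hypothesis. -/
theorem transfer (h : TwoRank W ρ N) : Transfer W ρ (N + ρ) := by
  intro T X X' J J' q κ κ' hX hX' hJ hJ' hc hc' ha ha' hq hq' hκ hκ' h0 hoff
  have hcu : (X ∪ X').card ≤ 2 * ρ + 4 := (Finset.card_union_le _ _).trans (by omega)
  have h1 := Rel_comp_ne h hX' hJ' hc' (ha'.mono (Nat.le_add_right _ _)) hκ' h0 hq'
  have hcr := cross_all h hX hJ hX' hJ' (by omega) (by omega) ha ha' hq hq' hκ hκ'
  have h2 := fun c => off_cross h hX hX' hJ hJ' hcu ha ha' hq hq' hκ hκ' hX' hJ' (by omega) ha'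
    hq' hκ' c
  rw [OffQ_eq] at hoff ⊢
  rw [hoff] at h2
  simp only [mul_zero, mul_eq_zero] at h2
  have h3 : pr W T (X.erase q) κ (q, false) * κ' (q, false) +
      pr W T (X.erase q) κ (q, true) * κ' (q, true) = 0 := by
    rcases h1 with h1 | h1
    · exact (h2 false).resolve_left h1
    · exact (h2 true).resolve_left h1
  rcases h1 with h1 | h1
  · apply (mul_eq_zero.1 (?_ : κ' (q, false) * _ = 0)).resolve_left h1
    calc κ' (q, false) * (pr W T (X.erase q) κ (q, false) * κ (q, false) +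
          pr W T (X.erase q) κ (q, true) * κ (q, true)) =
        κ (q, false) * pr W T (X.erase q) κ (q, false) * κ' (q, false) +
          pr W T (X.erase q) κ (q, true) * (κ (q, true) * κ' (q, false)) := by ring
      _ = κ (q, false) * (pr W T (X.erase q) κ (q, false) * κ' (q, false) +
          pr W T (X.erase q) κ (q, true) * κ' (q, true)) := by rw [← hcr]; ring
      _ = 0 := by rw [h3, mul_zero]
  · apply (mul_eq_zero.1 (?_ : κ' (q, true) * _ = 0)).resolve_left h1
    calc κ' (q, true) * (pr W T (X.erase q) κ (q, false) * κ (q, false) +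
          pr W T (X.erase q) κ (q, true) * κ (q, true)) =
        pr W T (X.erase q) κ (q, false) * (κ (q, false) * κ' (q, true)) +
          κ (q, true) * pr W T (X.erase q) κ (q, true) * κ' (q, true) := by ring
      _ = κ (q, true) * (pr W T (X.erase q) κ (q, false) * κ' (q, false) +
          pr W T (X.erase q) κ (q, true) * κ' (q, true)) := by rw [hcr]; ring
      _ = 0 := by rw [h3, mul_zero]

end Pool.Agent.Lib.MP_0c183c_co_P9S7
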